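import Pool.Agent.Helper51_GEN.DEX
import Pool.Agent.Helper32_OMP.Defs

/-!
# Squad ISO: Bertini for families of forms with simple normal crossings outside the origin
-/

set_option autoImplicit false
set_option linter.unusedVariables false
set_option linter.unusedSectionVars false

namespace Pool.Agent.ISO.H56

open Finset Pool.Agent.Helper32_OMP

section dex

variable (K F : Type) [Field K] [Field F] [CharZero K] [Algebra K F]

open scoped IntermediateField.algebraAdjoinAdjoin in
/-- an extension of fields of characteristic zero is formally smooth over the algebra generated by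
an algebraically independent family -/
theorem smooth_adjoin (ι : Type) (c : ι → F) :
    Algebra.FormallySmooth (Algebra.adjoin K (Set.range c)) F := by
  have h1 : Algebra.FormallySmooth (Algebra.adjoin K (Set.range c))
      (IntermediateField.adjoin K (Set.range c)) :=
    .of_isLocalization (nonZeroDivisors _)
  obtain ⟨s, hs⟩ := exists_isTranscendenceBasis (IntermediateField.adjoin K (Set.range c)) F
  have h2 : Algebra.IsAlgebraic (IntermediateField.adjoin
      (IntermediateField.adjoin K (Set.range c)) (Set.range ((↑) : s → F))) F :=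
    hs.isAlgebraic_field
  have h4 : CharZero (IntermediateField.adjoin K (Set.range c)) :=
    charZero_of_injective_algebraMap (algebraMap K _).injective
  have h5 : CharZero (IntermediateField.adjoin
      (IntermediateField.adjoin K (Set.range c)) (Set.range ((↑) : s → F))) :=
    charZero_of_injective_algebraMap (algebraMap (IntermediateField.adjoin K (Set.range c)) _).injective
  have h3 : Algebra.FormallySmooth (IntermediateField.adjoin K (Set.range c)) F :=
    .of_algebraicIndependent_of_isSeparable hs.1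
  exact .comp _ (IntermediateField.adjoin K (Set.range c)) _

/-- derivations with prescribed values, zero on the base field -/
theorem dexK (ι : Type) (c : ι → F) (hc : AlgebraicIndependent K c) (i₀ : ι) :
    ∃ D : F → F, (∀ a b, D (a + b) = D a + D b) ∧
      (∀ a b, D (a * b) = a * D b + b * D a) ∧ (∀ a : K, D (algebraMap K F a) = 0) ∧
      D (c i₀) = 1 ∧ ∀ i, i ≠ i₀ → D (c i) = 0 := by
  classical
  have := smooth_adjoin K F ι c
  let v : ι → TrivSqZeroExt F F := fun i =>
    TrivSqZeroExt.inl (c i) + TrivSqZeroExt.inr (if i = i₀ then 1 else 0)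
  let ψ : MvPolynomial ι K →ₐ[K] TrivSqZeroExt F F := MvPolynomial.aeval v
  let φ : Algebra.adjoin K (Set.range c) →+* TrivSqZeroExt F F :=
    (ψ.comp hc.aevalEquiv.symm.toAlgHom).toRingHom
  let π : TrivSqZeroExt F F →ₐ[K] F := TrivSqZeroExt.fstHom K F F
  have hφ : ∀ p, φ (hc.aevalEquiv p) = ψ p := by
    intro p
    change ψ (hc.aevalEquiv.symm (hc.aevalEquiv p)) = ψ p
    rw [AlgEquiv.symm_apply_apply]
  have hcomp : ∀ a, π (φ a) = algebraMap (Algebra.adjoin K (Set.range c)) F a := by
    intro a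
    obtain ⟨p, rfl⟩ := hc.aevalEquiv.surjective a
    rw [hφ, hc.algebraMap_aevalEquiv]
    have h1 : π.comp ψ = MvPolynomial.aeval c := by
      apply MvPolynomial.algHom_ext
      intro i
      have h2 : (ψ (MvPolynomial.X i)).fst = c i := by
        rw [show ψ (MvPolynomial.X i) = v i from MvPolynomial.aeval_X _ _]
        simp only [v, TrivSqZeroExt.fst_add, TrivSqZeroExt.fst_inl, TrivSqZeroExt.fst_inr,
          add_zero]
      rw [MvPolynomial.aeval_X]
      exact h2
    rw [← h1]
    rfl
  obtain ⟨s, hs1, hs2⟩ := Pool.Agent.GEN.H51.dex_lift φ π.toRingHom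
    (fun x => ⟨TrivSqZeroExt.inl x, by simp [π]⟩)
    (fun x y hx hy => by
      have hx' : x.fst = 0 := hx
      have hy' : y.fst = 0 := hy
      ext
      · simp [hx']
      · simp [hx', hy'])
    hcomp
  have hfst : ∀ x, (s x).fst = x := hs1
  have hsnd : ∀ i, (s (c i)).snd = if i = i₀ then 1 else 0 := by
    intro i
    have h1 : c i = algebraMap (Algebra.adjoin K (Set.range c)) F
        (hc.aevalEquiv (MvPolynomial.X i)) := by
      rw [hc.algebraMap_aevalEquiv, MvPolynomial.aeval_X]
    rw [h1, hs2, hφ, show ψ (MvPolynomial.X i) = v i from MvPolynomial.aeval_X _ _]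
    simp only [v, TrivSqZeroExt.snd_add, TrivSqZeroExt.snd_inl, TrivSqZeroExt.snd_inr, zero_add]
  refine ⟨fun x => (s x).snd, ?_, ?_, ?_, ?_, ?_⟩
  · intro a b
    simp
  · intro a b
    simp [hfst, mul_comm]
  · intro a
    have h1 : algebraMap K F a = algebraMap (Algebra.adjoin K (Set.range c)) F
        (hc.aevalEquiv (MvPolynomial.C a)) := by
      rw [hc.algebraMap_aevalEquiv, MvPolynomial.aeval_C]
    show (s (algebraMap K F a)).snd = 0
    rw [h1, hs2, hφ, show ψ (MvPolynomial.C a) = algebraMap K _ a from MvPolynomial.aeval_C _ _]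
    rfl
  · simp [hsnd]
  · intro i hi
    simp [hsnd, hi]

end dex

/-- chain rule -/
theorem chainK {K B σ : Type} [Field K] [CommRing B] [Algebra K B] [Fintype σ] (D : B → B)
    (hadd : ∀ a b, D (a + b) = D a + D b) (hmul : ∀ a b, D (a * b) = a * D b + b * D a)
    (hK : ∀ a : K, D (algebraMap K B a) = 0) (x : σ → B) (p : MvPolynomial σ K) :
    D (MvPolynomial.aeval x p) =
      ∑ j, MvPolynomial.aeval x (MvPolynomial.pderiv j p) * D (x j) := by
  classical
  induction p using MvPolynomial.induction_on with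
  | C a =>
    rw [MvPolynomial.aeval_C, hK]
    symm
    refine Finset.sum_eq_zero fun j _ => ?_
    rw [MvPolynomial.pderiv_C, map_zero, zero_mul]
  | add p q hp hq =>
    rw [map_add, hadd, hp, hq, ← Finset.sum_add_distrib]
    refine Finset.sum_congr rfl fun j _ => ?_
    rw [map_add, map_add, add_mul]
  | mul_X p i hp =>
    rw [map_mul, MvPolynomial.aeval_X, hmul, hp]
    have h2 : ∀ j, MvPolynomial.aeval x (MvPolynomial.pderiv j (p * MvPolynomial.X i)) * D (x j) =
        x i * (MvPolynomial.aeval x (MvPolynomial.pderiv j p) * D (x j)) +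
          (if j = i then MvPolynomial.aeval x p * D (x i) else 0) := by
      intro j
      rw [Derivation.leibniz, MvPolynomial.pderiv_X, smul_eq_mul, smul_eq_mul, map_add, map_mul,
        map_mul, MvPolynomial.aeval_X]
      by_cases hji : j = i
      · subst hji
        rw [if_pos rfl, Pi.single_eq_same, map_one]
        ring
      · rw [if_neg hji, Pi.single_eq_of_ne (fun h => hji h.symm), map_zero]
        ring
    rw [Finset.sum_congr rfl fun j _ => h2 j, Finset.sum_add_distrib, ← Finset.mul_sum,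
      Finset.sum_ite_eq' univ i fun _ => MvPolynomial.aeval x p * D (x i), if_pos (mem_univ i)]
    ring

section bad

variable {σ κ : Type} [Fintype σ] [Fintype κ]

open scoped Classical in
/-- the covectors in the span of the gradients at a common zero satisfy an equation -/
theorem bad_poly (F : κ → MvPolynomial σ ℂ) (d : κ → ℕ) (hF : ∀ i, (F i).IsHomogeneous (d i))
    (J : Finset κ) :
    ∃ P : MvPolynomial σ ℂ, P ≠ 0 ∧ ∀ (z : σ → ℂ) (c : κ → ℂ), z ≠ 0 →
      (∀ j ∈ J, MvPolynomial.eval z (F j) = 0) →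
      MvPolynomial.eval (fun l => ∑ j ∈ J, c j * MvPolynomial.eval z (MvPolynomial.pderiv l (F j)))
        P = 0 := by
  obtain ⟨I, hI⟩ : ∃ I : Ideal (MvPolynomial (σ ⊕ κ) ℂ), I = Ideal.span
      {q | ∃ j ∈ J, q = MvPolynomial.rename Sum.inl (F j)} := ⟨_, rfl⟩
  obtain ⟨ψ, hψ⟩ : ∃ ψ : σ → MvPolynomial (σ ⊕ κ) ℂ, ψ = fun l => ∑ j ∈ J,
      MvPolynomial.X (Sum.inr j) * MvPolynomial.rename Sum.inl (MvPolynomial.pderiv l (F j)) :=
    ⟨_, rfl⟩
  have hmem : ∀ j ∈ J, MvPolynomial.rename Sum.inl (F j) ∈ I := by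
    intro j hj
    rw [hI]
    exact Ideal.subset_span ⟨j, hj, rfl⟩
  -- one prime
  have key : ∀ p : Ideal (MvPolynomial (σ ⊕ κ) ℂ), p.IsPrime → I ≤ p →
      (∃ l, MvPolynomial.X (Sum.inl l) ∉ p) →
      ∃ P : MvPolynomial σ ℂ, P ≠ 0 ∧ MvPolynomial.aeval ψ P ∈ p := by
    intro p hp hIp hex
    by_contra hno
    push Not at hno
    obtain ⟨l₀, hl₀⟩ := hex
    have : CharZero (FractionRing (MvPolynomial (σ ⊕ κ) ℂ ⧸ p)) :=
      charZero_of_injective_algebraMap
        (algebraMap ℂ (FractionRing (MvPolynomial (σ ⊕ κ) ℂ ⧸ p))).injective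
    obtain ⟨π, hπ⟩ : ∃ π : MvPolynomial (σ ⊕ κ) ℂ →ₐ[ℂ]
        FractionRing (MvPolynomial (σ ⊕ κ) ℂ ⧸ p), π = (IsScalarTower.toAlgHom ℂ
          (MvPolynomial (σ ⊕ κ) ℂ ⧸ p) (FractionRing (MvPolynomial (σ ⊕ κ) ℂ ⧸ p))).comp
          (Ideal.Quotient.mkₐ ℂ p) := ⟨_, rfl⟩
    have hπ0 : ∀ q, π q = 0 ↔ q ∈ p := by
      intro q
      rw [hπ]
      show algebraMap (MvPolynomial (σ ⊕ κ) ℂ ⧸ p) (FractionRing (MvPolynomial (σ ⊕ κ) ℂ ⧸ p))
        (Ideal.Quotient.mk p q) = 0 ↔ _
      rw [map_eq_zero_iff _ (IsFractionRing.injective _ _), Ideal.Quotient.eq_zero_iff_mem]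
    have hci : AlgebraicIndependent ℂ (fun l => π (ψ l)) := by
      rw [algebraicIndependent_iff]
      intro P hP
      by_contra hP0
      refine hno P hP0 ?_
      rw [← hπ0, ← hP]
      show π (MvPolynomial.aeval ψ P) = MvPolynomial.aeval (fun l => π (ψ l)) P
      rw [← AlgHom.comp_apply]
      have h1 : π.comp (MvPolynomial.aeval ψ) = MvPolynomial.aeval (fun l => π (ψ l)) := by
        refine MvPolynomial.algHom_ext fun i => ?_
        rw [AlgHom.comp_apply, MvPolynomial.aeval_X, MvPolynomial.aeval_X]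
      rw [h1]
    obtain ⟨D, hadd, hmul, hK, hD1, hD0⟩ := dexK ℂ _ σ (fun l => π (ψ l)) hci l₀
    obtain ⟨x, hx⟩ : ∃ x : σ → FractionRing (MvPolynomial (σ ⊕ κ) ℂ ⧸ p),
        x = fun l => π (MvPolynomial.X (Sum.inl l)) := ⟨_, rfl⟩
    obtain ⟨y, hy⟩ : ∃ y : κ → FractionRing (MvPolynomial (σ ⊕ κ) ℂ ⧸ p),
        y = fun j => π (MvPolynomial.X (Sum.inr j)) := ⟨_, rfl⟩
    have hren : ∀ q : MvPolynomial σ ℂ, π (MvPolynomial.rename Sum.inl q) =
        MvPolynomial.aeval x q := by
      intro q
      rw [← AlgHom.comp_apply]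
      have h1 : π.comp (MvPolynomial.rename Sum.inl) = MvPolynomial.aeval x := by
        refine MvPolynomial.algHom_ext fun i => ?_
        rw [AlgHom.comp_apply, MvPolynomial.rename_X, MvPolynomial.aeval_X, hx]
      rw [h1]
    have hFx : ∀ j ∈ J, MvPolynomial.aeval x (F j) = 0 := by
      intro j hj
      rw [← hren, hπ0]
      exact hIp (hmem j hj)
    have hψx : ∀ l, π (ψ l) = ∑ j ∈ J, y j * MvPolynomial.aeval x (MvPolynomial.pderiv l (F j)) := by
      intro l
      rw [hψ, map_sum]
      refine Finset.sum_congr rfl fun j _ => ?_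
      rw [map_mul, hren, hy]
    have hrel : ∑ l, π (ψ l) * x l = 0 := by
      simp only [hψx, Finset.sum_mul]
      rw [Finset.sum_comm]
      refine Finset.sum_eq_zero fun j hj => ?_
      have h1 : ∑ l, x l * MvPolynomial.aeval x (MvPolynomial.pderiv l (F j)) = 0 := by
        have h2 := congrArg (MvPolynomial.aeval x) (hF j).sum_X_mul_pderiv
        rw [map_sum, map_nsmul, hFx j hj, nsmul_zero] at h2
        rw [← h2]
        refine Finset.sum_congr rfl fun l _ => ?_
        rw [map_mul, MvPolynomial.aeval_X]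
      calc ∑ l, y j * MvPolynomial.aeval x (MvPolynomial.pderiv l (F j)) * x l
          = y j * ∑ l, x l * MvPolynomial.aeval x (MvPolynomial.pderiv l (F j)) := by
            rw [Finset.mul_sum]
            exact Finset.sum_congr rfl fun l _ => by ring
        _ = 0 := by rw [h1, mul_zero]
    have h0 : D 0 = 0 := by
      have h := hadd 0 0
      rw [add_zero] at h
      exact left_eq_add.1 h
    have hsum : ∀ (s : Finset σ) (g : σ → FractionRing (MvPolynomial (σ ⊕ κ) ℂ ⧸ p)),
        D (∑ l ∈ s, g l) = ∑ l ∈ s, D (g l) := by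
      intro s g
      induction s using Finset.induction_on with
      | empty => rw [Finset.sum_empty, Finset.sum_empty, h0]
      | insert a s ha ih => rw [Finset.sum_insert ha, Finset.sum_insert ha, hadd, ih]
    have h3 := congrArg D hrel
    rw [hsum, h0] at h3
    simp only [hmul] at h3
    rw [Finset.sum_add_distrib] at h3
    have h4 : ∑ l, π (ψ l) * D (x l) = 0 := by
      simp only [hψx, Finset.sum_mul]
      rw [Finset.sum_comm]
      refine Finset.sum_eq_zero fun j hj => ?_
      have h5 := chainK D hadd hmul hK x (F j)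
      rw [hFx j hj, h0] at h5
      calc ∑ l, y j * MvPolynomial.aeval x (MvPolynomial.pderiv l (F j)) * D (x l)
          = y j * ∑ l, MvPolynomial.aeval x (MvPolynomial.pderiv l (F j)) * D (x l) := by
            rw [Finset.mul_sum]
            exact Finset.sum_congr rfl fun l _ => by ring
        _ = 0 := by rw [← h5, mul_zero]
    have h6 : ∑ l, x l * D (π (ψ l)) = x l₀ := by
      rw [Finset.sum_eq_single l₀]
      · rw [hD1, mul_one]
      · intro l _ hl
        rw [hD0 l hl, mul_zero]
      · intro h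
        exact absurd (mem_univ _) h
    rw [h4, h6, zero_add] at h3
    have h7 : MvPolynomial.X (Sum.inl l₀) ∈ p := by
      rw [← hπ0, ← h3, hx]
    exact hl₀ h7
  choose! PP hPP0 hPPm using key
  have hfin := Ideal.finite_minimalPrimes_of_isNoetherianRing _ I
  obtain ⟨Q, hQ⟩ : ∃ Q : Ideal (MvPolynomial (σ ⊕ κ) ℂ) → MvPolynomial σ ℂ,
      Q = fun p => if ∃ l, MvPolynomial.X (Sum.inl l) ∉ p then PP p else 1 := ⟨_, rfl⟩
  refine ⟨∏ p ∈ hfin.toFinset, Q p, ?_, ?_⟩
  · rw [Finset.prod_ne_zero_iff]
    intro p hp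
    have hp' := (Set.Finite.mem_toFinset hfin).1 hp
    rw [hQ]
    by_cases h : ∃ l, MvPolynomial.X (Sum.inl l) ∉ p
    · simp only [if_pos h]
      exact hPP0 p hp'.1.1 hp'.1.2 h
    · simp only [if_neg h]
      exact one_ne_zero
  · intro z c hz hJ
    obtain ⟨ev, hev⟩ : ∃ ev : MvPolynomial (σ ⊕ κ) ℂ →ₐ[ℂ] ℂ,
        ev = MvPolynomial.aeval (Sum.elim z c) := ⟨_, rfl⟩
    have hevr : ∀ q : MvPolynomial σ ℂ, ev (MvPolynomial.rename Sum.inl q) =
        MvPolynomial.eval z q := by
      intro q
      rw [hev, MvPolynomial.aeval_rename, Sum.elim_comp_inl]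
      rfl
    have hker : I ≤ RingHom.ker ev := by
      rw [hI, Ideal.span_le]
      rintro q ⟨j, hj, rfl⟩
      show ev _ = 0
      rw [hevr]
      exact hJ j hj
    have hprime : (RingHom.ker ev).IsPrime := RingHom.ker_isPrime _
    obtain ⟨p, hp, hple⟩ := Ideal.exists_minimalPrimes_le hker
    obtain ⟨l, hl⟩ : ∃ l, z l ≠ 0 := by
      by_contra h
      push Not at h
      exact hz (funext h)
    have hex : ∃ l, MvPolynomial.X (Sum.inl l) ∉ p := by
      refine ⟨l, fun h => hl ?_⟩
      have h1 : ev (MvPolynomial.X (Sum.inl l)) = 0 := hple h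
      rw [hev, MvPolynomial.aeval_X] at h1
      exact h1
    have h1 : MvPolynomial.aeval ψ (PP p) ∈ p := hPPm p hp.1.1 hp.1.2 hex
    have h2 : ev (MvPolynomial.aeval ψ (PP p)) = 0 := hple h1
    have h3 : ev (MvPolynomial.aeval ψ (PP p)) = MvPolynomial.eval (fun l => ∑ j ∈ J, c j *
        MvPolynomial.eval z (MvPolynomial.pderiv l (F j))) (PP p) := by
      rw [← AlgHom.comp_apply]
      have h4 : ev.comp (MvPolynomial.aeval ψ) = MvPolynomial.aeval (fun l => ∑ j ∈ J, c j *
          MvPolynomial.eval z (MvPolynomial.pderiv l (F j))) := by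
        refine MvPolynomial.algHom_ext fun i => ?_
        rw [AlgHom.comp_apply, MvPolynomial.aeval_X, MvPolynomial.aeval_X, hψ, map_sum]
        refine Finset.sum_congr rfl fun j _ => ?_
        rw [map_mul, hevr]
        congr 1
        rw [hev, MvPolynomial.aeval_X]
        rfl
      rw [h4]
      rfl
    rw [map_prod]
    refine Finset.prod_eq_zero ((Set.Finite.mem_toFinset hfin).2 hp) ?_
    rw [hQ]
    simp only [if_pos hex]
    rw [← h3, h2]

end bad

end Pool.Agent.ISO.H56
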