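import Pool.Agent.Helper56_ISO.Bert

/-!
# Squad ISO: general linear coordinates for a family of forms
-/

set_option autoImplicit false
set_option linter.unusedVariables false
set_option linter.unusedSectionVars false

namespace Pool.Agent.ISO.H56

open Finset Pool.Agent.Helper32_OMP

/-- simple normal crossings with explicit relations -/
theorem snc_iff {σ κ : Type} [Fintype κ] (g : κ → MvPolynomial σ ℂ) (z : σ → ℂ) :
    SncAt g z ↔ ∀ c : κ → ℂ, (∀ i, MvPolynomial.eval z (g i) ≠ 0 → c i = 0) →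
      (∀ l, ∑ i, c i * MvPolynomial.eval z (MvPolynomial.pderiv l (g i)) = 0) → ∀ i, c i = 0 := by
  classical
  have hsub : ∀ F : κ → ℂ, (∀ i, MvPolynomial.eval z (g i) ≠ 0 → F i = 0) →
      ∑ i : {i // MvPolynomial.eval z (g i) = 0}, F i.1 = ∑ i, F i := by
    intro F hF
    rw [← Finset.sum_subtype (univ.filter fun i => MvPolynomial.eval z (g i) = 0)
      (fun x => by simp) F]
    refine Finset.sum_subset (Finset.filter_subset _ _) fun i _ hi => hF i ?_
    intro h
    exact hi (Finset.mem_filter.2 ⟨mem_univ _, h⟩)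
  unfold SncAt
  rw [Fintype.linearIndependent_iff]
  constructor
  · intro h c hc hs i
    by_cases hi : MvPolynomial.eval z (g i) = 0
    · refine h (fun i => c i.1) ?_ ⟨i, hi⟩
      funext l
      rw [Finset.sum_apply, Pi.zero_apply]
      simp only [Pi.smul_apply, smul_eq_mul]
      refine (hsub (fun i => c i * MvPolynomial.eval z (MvPolynomial.pderiv l (g i)))
        fun i hi => ?_).trans (hs l)
      rw [hc i hi, zero_mul]
    · exact hc i hi
  · intro h c hs i
    obtain ⟨c', hc'⟩ : ∃ c' : κ → ℂ, c' = fun i =>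
        if h : MvPolynomial.eval z (g i) = 0 then c ⟨i, h⟩ else 0 := ⟨_, rfl⟩
    have h1 : ∀ i : {i // MvPolynomial.eval z (g i) = 0}, c' i.1 = c i := by
      intro i
      rw [hc']
      simp only [dif_pos i.2]
    have h2 : ∀ i, MvPolynomial.eval z (g i) ≠ 0 → c' i = 0 := by
      intro i hi
      rw [hc']
      simp only [dif_neg hi]
    rw [← h1]
    refine h c' h2 (fun l => ?_) i.1
    have h5 := hsub (fun i => c' i * MvPolynomial.eval z (MvPolynomial.pderiv l (g i)))
      fun i hi => by rw [h2 i hi, zero_mul]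
    have h3 := congrFun hs l
    rw [Finset.sum_apply, Pi.zero_apply] at h3
    simp only [Pi.smul_apply, smul_eq_mul] at h3
    refine h5.symm.trans (Eq.trans ?_ h3)
    refine Finset.sum_congr rfl fun i _ => ?_
    show c' i.1 * _ = c i * _
    rw [h1]

/-- the linear form with rational coefficients `h` -/
noncomputable def lin {σ : Type} [Fintype σ] (h : σ → ℚ) : MvPolynomial σ ℂ :=
  ∑ l, MvPolynomial.C ((h l : ℚ) : ℂ) * MvPolynomial.X l

section

variable {σ κ : Type} [Fintype σ] [Fintype κ]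

theorem eval_lin (h : σ → ℚ) (z : σ → ℂ) :
    MvPolynomial.eval z (lin h) = ∑ l, ((h l : ℚ) : ℂ) * z l := by
  unfold lin
  rw [map_sum]
  exact Finset.sum_congr rfl fun l _ => by rw [map_mul, MvPolynomial.eval_C, MvPolynomial.eval_X]

theorem pderiv_lin (h : σ → ℚ) (z : σ → ℂ) (j : σ) :
    MvPolynomial.eval z (MvPolynomial.pderiv j (lin h)) = ((h j : ℚ) : ℂ) := by
  classical
  unfold lin
  rw [map_sum, map_sum, Finset.sum_eq_single j]
  · rw [MvPolynomial.pderiv_C_mul, MvPolynomial.pderiv_X_self, mul_one, MvPolynomial.eval_C]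
  · intro l _ hl
    rw [MvPolynomial.pderiv_C_mul, MvPolynomial.pderiv_X_of_ne hl, mul_zero, map_zero]
  · intro h
    exact absurd (mem_univ _) h

theorem lin_homog (h : σ → ℚ) : (lin h).IsHomogeneous 1 := by
  unfold lin
  refine MvPolynomial.IsHomogeneous.sum _ _ _ fun l _ => ?_
  have h1 := (MvPolynomial.isHomogeneous_C σ ((h l : ℚ) : ℂ)).mul (MvPolynomial.isHomogeneous_X ℂ l)
  rwa [zero_add] at h1

/-- one general linear form -/
theorem step (F : κ → MvPolynomial σ ℂ) (d : κ → ℕ) (hF : ∀ i, (F i).IsHomogeneous (d i))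
    (hS : ∀ z : σ → ℂ, z ≠ 0 → SncAt F z) :
    ∃ h : σ → ℚ, ∀ z : σ → ℂ, z ≠ 0 → ∀ (c : κ → ℂ) (b : ℂ),
      (∀ i, MvPolynomial.eval z (F i) ≠ 0 → c i = 0) →
      (∀ l, ∑ i, c i * MvPolynomial.eval z (MvPolynomial.pderiv l (F i)) + b * ((h l : ℚ) : ℂ) = 0) →
      (∀ i, c i = 0) ∧ b = 0 := by
  classical
  choose P hP0 hP using bad_poly F d hF
  have hprod : (∏ J : Finset κ, P J) ≠ 0 := Finset.prod_ne_zero_iff.2 fun J _ => hP0 J
  obtain ⟨h, hh⟩ : ∃ h : σ → ℚ, MvPolynomial.eval (fun l => ((h l : ℚ) : ℂ))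
      (∏ J : Finset κ, P J) ≠ 0 := by
    by_contra hno
    push Not at hno
    refine hprod (MvPolynomial.funext_set (fun _ : σ => Set.range fun q : ℚ => (q : ℂ))
      (fun _ => Set.infinite_range_of_injective Rat.cast_injective) fun x hx => ?_)
    rw [map_zero]
    have h1 : ∀ l, ∃ q : ℚ, (q : ℂ) = x l := fun l => hx l (Set.mem_univ l)
    choose q hq using h1
    have h2 := hno q
    have h3 : (fun l => ((q l : ℚ) : ℂ)) = x := funext hq
    rwa [h3] at h2
  refine ⟨h, fun z hz c b hc hs => ?_⟩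
  have hb : b = 0 := by
    by_contra hb
    have h1 := hP (univ.filter fun i => MvPolynomial.eval z (F i) = 0) z (fun i => -(c i / b)) hz
      (fun j hj => (Finset.mem_filter.1 hj).2)
    have h2 : (fun l => ∑ j ∈ univ.filter (fun i => MvPolynomial.eval z (F i) = 0), -(c j / b) *
        MvPolynomial.eval z (MvPolynomial.pderiv l (F j))) = fun l => ((h l : ℚ) : ℂ) := by
      funext l
      have h3 := hs l
      have h4 : ∑ j ∈ univ.filter (fun i => MvPolynomial.eval z (F i) = 0), -(c j / b) *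
          MvPolynomial.eval z (MvPolynomial.pderiv l (F j)) =
          ∑ j, -(c j / b) * MvPolynomial.eval z (MvPolynomial.pderiv l (F j)) := by
        refine Finset.sum_subset (Finset.filter_subset _ _) fun i _ hi => ?_
        rw [hc i fun h => hi (Finset.mem_filter.2 ⟨mem_univ _, h⟩), zero_div, neg_zero, zero_mul]
      rw [h4]
      have h5 : ∑ j, -(c j / b) * MvPolynomial.eval z (MvPolynomial.pderiv l (F j)) =
          -(∑ j, c j * MvPolynomial.eval z (MvPolynomial.pderiv l (F j))) / b := by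
        rw [neg_div, Finset.sum_div, ← Finset.sum_neg_distrib]
        exact Finset.sum_congr rfl fun j _ => by ring
      rw [h5, eq_neg_of_add_eq_zero_left h3, neg_neg, mul_div_cancel_left₀ _ hb]
    rw [h2] at h1
    refine hh ?_
    rw [map_prod]
    exact Finset.prod_eq_zero (mem_univ _) h1
  refine ⟨(snc_iff F z).1 (hS z hz) c hc fun l => ?_, hb⟩
  have h3 := hs l
  rwa [hb, zero_mul, add_zero] at h3

/-- several general linear forms -/
theorem steps (F : κ → MvPolynomial σ ℂ) (d : κ → ℕ) (hF : ∀ i, (F i).IsHomogeneous (d i))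
    (hS : ∀ z : σ → ℂ, z ≠ 0 → SncAt F z) (m : ℕ) :
    ∃ h : Fin m → σ → ℚ, ∀ z : σ → ℂ, z ≠ 0 →
      SncAt (Sum.elim F fun t => lin (h t) : κ ⊕ Fin m → MvPolynomial σ ℂ) z := by
  classical
  induction m with
  | zero =>
    refine ⟨fun t => t.elim0, fun z hz => ?_⟩
    rw [snc_iff]
    intro c hc hs i
    rcases i with i | t
    · refine (snc_iff F z).1 (hS z hz) (fun i => c (Sum.inl i)) (fun i hi => hc (Sum.inl i) hi)
        (fun l => ?_) i
      have h1 := hs l
      rw [Fintype.sum_sum_type, Fin.sum_univ_zero, add_zero] at h1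
      exact h1
    · exact t.elim0
  | succ m ih =>
    obtain ⟨h, hh⟩ := ih
    obtain ⟨h', hh'⟩ := step (Sum.elim F fun t => lin (h t) : κ ⊕ Fin m → MvPolynomial σ ℂ)
      (Sum.elim d fun _ => 1) (by
        rintro (i | t)
        · exact hF i
        · exact lin_homog _) hh
    refine ⟨Fin.snoc h h', fun z hz => ?_⟩
    rw [snc_iff]
    intro c hc hs
    obtain ⟨h1, h2⟩ := hh' z hz (Sum.elim (fun i => c (Sum.inl i)) fun t =>
      c (Sum.inr t.castSucc)) (c (Sum.inr (Fin.last m))) (by
        rintro (i | t) hi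
        · exact hc (Sum.inl i) hi
        · refine hc (Sum.inr t.castSucc) ?_
          intro h3
          refine hi ?_
          rw [Sum.elim_inr] at h3 ⊢
          rwa [Fin.snoc_castSucc] at h3) (fun l => by
        have h3 := hs l
        rw [Fintype.sum_sum_type, Fin.sum_univ_castSucc] at h3
        simp only [Sum.elim_inl, Sum.elim_inr, Fin.snoc_castSucc, Fin.snoc_last] at h3
        rw [pderiv_lin h'] at h3
        rw [Fintype.sum_sum_type]
        simp only [Sum.elim_inl, Sum.elim_inr]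
        rw [add_assoc]
        exact h3)
    rintro (i | t)
    · exact h1 (Sum.inl i)
    · refine Fin.lastCases ?_ (fun t => ?_) t
      · exact h2
      · exact h1 (Sum.inr t)

/-- a matrix of rational coordinates in general position -/
theorem coords (F : κ → MvPolynomial σ ℂ) (d : κ → ℕ) (hF : ∀ i, (F i).IsHomogeneous (d i))
    (hS : ∀ z : σ → ℂ, z ≠ 0 → SncAt F z) :
    ∃ h : σ → σ → ℚ, (∀ z : σ → ℂ, z ≠ 0 → ∀ (c : κ → ℂ) (b : σ → ℂ),
      (∀ i, MvPolynomial.eval z (F i) ≠ 0 → c i = 0) →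
      (∀ t, ∑ l, ((h t l : ℚ) : ℂ) * z l ≠ 0 → b t = 0) →
      (∀ l, ∑ i, c i * MvPolynomial.eval z (MvPolynomial.pderiv l (F i)) +
        ∑ t, b t * ((h t l : ℚ) : ℂ) = 0) → (∀ i, c i = 0) ∧ ∀ t, b t = 0) := by
  classical
  obtain ⟨h, hh⟩ := steps F d hF hS (Fintype.card σ)
  obtain ⟨e⟩ : Nonempty (σ ≃ Fin (Fintype.card σ)) := ⟨Fintype.equivFin σ⟩
  refine ⟨fun t => h (e t), fun z hz c b hc hb hs => ?_⟩
  have h1 := (snc_iff _ z).1 (hh z hz) (Sum.elim c fun t => b (e.symm t)) (by
    rintro (i | t) hi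
    · exact hc i hi
    · refine hb (e.symm t) ?_
      rw [Sum.elim_inr, eval_lin] at hi
      simp only [Equiv.apply_symm_apply]
      exact hi) (fun l => by
    rw [Fintype.sum_sum_type]
    simp only [Sum.elim_inl, Sum.elim_inr, pderiv_lin]
    rw [← hs l]
    congr 1
    rw [← e.sum_comp]
    simp only [Equiv.symm_apply_apply])
  refine ⟨fun i => h1 (Sum.inl i), fun t => ?_⟩
  have h2 := h1 (Sum.inr (e t))
  rw [Sum.elim_inr, Equiv.symm_apply_apply] at h2
  exact h2

end

end Pool.Agent.ISO.H56
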