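import Pool.Agent.Helper56_ISO.Stab

/-!
# Squad ISO: the stable form of Theorem U
-/

set_option autoImplicit false
set_option linter.unusedVariables false
set_option linter.unusedSectionVars false

namespace Pool.Agent.ISO.H56

open Finset Pool.Agent.Helper32_OMP Pool.Agent.Helper8_CR Pool.Agent.GEN.H56

/-- Theorem U -/
def ThmU : Prop :=
  ∀ (k : Type) [Field k] [Algebra k ℂ] (σ ι : Type) [Fintype σ] [Fintype ι],
    2 ≤ Fintype.card σ → ∀ f : ι → MvPolynomial σ k, (∀ i, ∀ c : k, f i ≠ MvPolynomial.C c) →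
    ∀ a : ι → ℕ, (∀ i, 0 < a i) → ∀ c : k, c ≠ 0 → ∀ T : Finset (σ → k), SncOut f T →
    (∀ p ∈ T, NdAt f p) → Mon (MvPolynomial.C c * ∏ i, f i ^ a i)

section irr

variable {k : Type} [Field k] {σ : Type}

theorem stab_irr (f : MvPolynomial σ k) (hf : f ≠ 0) (r : ℕ) (hr : r ≠ 0) :
    Irreducible (stab f r) := by
  classical
  obtain ⟨j0⟩ : Nonempty (Fin r) := ⟨⟨0, Nat.pos_of_ne_zero hr⟩⟩
  obtain ⟨g, hg⟩ : ∃ g : MvPolynomial (SV σ r) k, g = MvPolynomial.rename Sum.inl f +
      ∑ j ∈ univ.erase j0, MvPolynomial.X (Sum.inr (Sum.inl j)) *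
        MvPolynomial.X (Sum.inr (Sum.inr j)) := ⟨_, rfl⟩
  have h1 : stab f r = MvPolynomial.X (Sum.inr (Sum.inr j0)) *
      MvPolynomial.X (Sum.inr (Sum.inl j0)) + g := by
    unfold stab
    rw [hg, ← Finset.add_sum_erase univ _ (mem_univ j0)]
    ring
  have hvars : ∀ i : SV σ r, i = Sum.inr (Sum.inl j0) ∨ i = Sum.inr (Sum.inr j0) →
      i ∉ g.vars := by
    intro i hi hmem
    rw [hg] at hmem
    rcases Finset.mem_union.1 (MvPolynomial.vars_add_subset _ _ hmem) with h2 | h2
    · have h3 := MvPolynomial.vars_rename _ _ h2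
      rw [Finset.mem_image] at h3
      obtain ⟨a, _, ha⟩ := h3
      rcases hi with rfl | rfl <;> exact Sum.inl_ne_inr ha
    · have h3 := MvPolynomial.vars_sum_subset _ _ h2
      rw [Finset.mem_biUnion] at h3
      obtain ⟨j, hj, h4⟩ := h3
      have hne := (Finset.mem_erase.1 hj).1
      have h5 := MvPolynomial.vars_mul _ _ h4
      rw [MvPolynomial.vars_X, MvPolynomial.vars_X, Finset.mem_union, Finset.mem_singleton,
        Finset.mem_singleton] at h5
      rcases hi with rfl | rfl
      · rcases h5 with h6 | h6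
        · exact hne (Sum.inl_injective (Sum.inr_injective h6)).symm
        · exact Sum.inl_ne_inr (Sum.inr_injective h6)
      · rcases h5 with h6 | h6
        · exact Sum.inl_ne_inr (Sum.inr_injective h6).symm
        · exact hne (Sum.inr_injective (Sum.inr_injective h6)).symm
  rw [h1]
  refine MvPolynomial.irreducible_mul_X_add _ _ _ (MvPolynomial.X_ne_zero _) ?_
    (hvars _ (Or.inl rfl)) ?_
  · rw [MvPolynomial.vars_X, Finset.mem_singleton]
    intro h2
    exact Sum.inl_ne_inr (Sum.inr_injective h2)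
  · rw [(MvPolynomial.X_prime (R := k) (i := (Sum.inr (Sum.inr j0) : SV σ r))).irreducible.isRelPrime_iff_not_dvd]
    rintro ⟨q, hq⟩
    -- put `v_0 = 0`
    obtain ⟨ev, hev⟩ : ∃ ev : MvPolynomial (SV σ r) k →ₐ[k] MvPolynomial σ k,
        ev = MvPolynomial.aeval (Sum.elim MvPolynomial.X fun _ => 0) := ⟨_, rfl⟩
    have h2 := congrArg ev hq
    rw [map_mul, hg, map_add, map_sum, hev, MvPolynomial.aeval_X, Sum.elim_inr, zero_mul,
      MvPolynomial.aeval_rename, Sum.elim_comp_inl, Finset.sum_eq_zero fun j _ => by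
        rw [map_mul, MvPolynomial.aeval_X, Sum.elim_inr, zero_mul], add_zero] at h2
    have h3 : MvPolynomial.aeval (MvPolynomial.X : σ → MvPolynomial σ k) f = f :=
      MvPolynomial.aeval_X_left_apply f
    rw [h3] at h2
    exact hf h2

/-- a family whose product is irreducible has one element -/
theorem single_of_irr {R ι : Type} [CommRing R] [IsDomain R] [Fintype ι] (g : ι → R) (c : R)
    (hg : ∀ i, ¬ IsUnit (g i)) (a : ι → ℕ) (ha : ∀ i, 0 < a i)
    (h : Irreducible (c * ∏ i, g i ^ a i)) (i₀ : ι) :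
    (∀ i, i = i₀) ∧ a i₀ = 1 ∧ IsUnit c := by
  classical
  have hne : c * ∏ i, g i ^ a i ≠ 0 := h.ne_zero
  have hstep : ∀ A B : R, c * ∏ i, g i ^ a i = A * B → ¬ IsUnit A → IsUnit B := by
    intro A B hAB hA
    exact (h.isUnit_or_isUnit hAB).resolve_left hA
  have h1 : c * ∏ i, g i ^ a i =
      g i₀ * (g i₀ ^ (a i₀ - 1) * (c * ∏ i ∈ univ.erase i₀, g i ^ a i)) := by
    rw [← Finset.mul_prod_erase univ _ (mem_univ i₀)]
    have h2 : g i₀ ^ a i₀ = g i₀ * g i₀ ^ (a i₀ - 1) := by
      rw [← pow_succ']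
      congr 1
      have := ha i₀
      omega
    rw [h2]
    ring
  have h2 := hstep _ _ h1 (hg i₀)
  rw [IsUnit.mul_iff, IsUnit.mul_iff] at h2
  obtain ⟨h3, h4, h5⟩ := h2
  refine ⟨fun i => ?_, ?_, h4⟩
  · by_contra hi
    rw [← Finset.mul_prod_erase (univ.erase i₀) _ (Finset.mem_erase.2 ⟨hi, mem_univ i⟩),
      IsUnit.mul_iff] at h5
    have h6 := h5.1
    rw [isUnit_pow_iff (ha i).ne'] at h6
    exact hg i h6
  · by_contra h6
    have h7 : a i₀ - 1 ≠ 0 := by
      have := ha i₀
      omega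
    rw [isUnit_pow_iff h7] at h3
    exact hg i₀ h3

end irr

/-- **Theorem U, stable form** -/
theorem stableU (hU : ThmU) {k : Type} [Field k] [Algebra k ℂ] {σ ι : Type} [Fintype σ]
    [Fintype ι] (f : MvPolynomial σ k) (hf : ∀ c : k, f ≠ MvPolynomial.C c) (r : ℕ)
    (hn : 2 ≤ Fintype.card (SV σ r)) (g : ι → MvPolynomial (SV σ r) k)
    (hg : ∀ i, ∀ c : k, g i ≠ MvPolynomial.C c) (a : ι → ℕ) (ha : ∀ i, 0 < a i) (c : k)
    (hc : c ≠ 0) (hF : stab f r = MvPolynomial.C c * ∏ i, g i ^ a i)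
    (T : Finset (SV σ r → k)) (hA : SncOut g T) (hN : ∀ p ∈ T, NdAt g p) : Mon f := by
  classical
  have hf0 : f ≠ 0 := by
    have h1 := hf 0
    rwa [map_zero] at h1
  by_cases hr : r = 0
  · -- no new variables
    subst hr
    have h1 : Mon (stab f 0) := by
      rw [hF]
      exact hU k _ _ hn g hg a ha c hc T hA hN
    obtain ⟨e, he⟩ : ∃ e : SV σ 0 ≃ σ, ∀ l, e (Sum.inl l) = l :=
      ⟨Equiv.sumEmpty _ _, fun l => rfl⟩
    have h2 : MvPolynomial.renameEquiv k e (stab f 0) = f := by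
      rw [MvPolynomial.renameEquiv_apply]
      unfold stab
      rw [Fin.sum_univ_zero, add_zero, MvPolynomial.rename_rename]
      have h3 : (e ∘ Sum.inl : σ → σ) = id := funext he
      rw [h3, MvPolynomial.rename_id_apply]
    rw [← h2]
    refine mon_iso isozStmt bautStmt (Nat.card_congr e).symm (MvPolynomial.renameEquiv k e) _ h1
  · -- one polynomial
    have hirr := stab_irr f hf0 r hr
    have hnu : ∀ i, ¬ IsUnit (g i) := by
      intro i hi
      obtain ⟨c, hc⟩ := MvPolynomial.isUnit_iff_eq_C_of_isReduced.1 hi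
      exact hg i c hc.2
    have hne : Nonempty ι := by
      by_contra hno
      rw [not_nonempty_iff] at hno
      rw [hF, Finset.prod_of_isEmpty, mul_one] at hirr
      exact hirr.not_isUnit ((isUnit_iff_ne_zero.2 hc).map MvPolynomial.C)
    obtain ⟨i₀⟩ := hne
    rw [hF] at hirr
    obtain ⟨h1, h2, -⟩ := single_of_irr g (MvPolynomial.C c) hnu a ha hirr i₀
    have huniq : ∀ i, i = i₀ := h1
    have hFg : stab f r = MvPolynomial.C c * g i₀ := by
      rw [hF]
      congr 1
      rw [Fintype.prod_eq_single i₀ fun i hi => absurd (huniq i) hi, h2, pow_one]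
    have hsub : Subsingleton ι := ⟨fun x y => (huniq x).trans (huniq y).symm⟩
    have hS : SncOut (fun _ : Unit => stab f r) T := by
      intro z hz
      have h3 := hA z hz
      have h4 : (fun i => MvPolynomial.map (algebraMap k ℂ) (g i)) =
          fun _ : ι => MvPolynomial.map (algebraMap k ℂ) (g i₀) := by
        funext i
        rw [huniq i]
      rw [h4, snc_sub] at h3
      show SncAt (fun _ : Unit => MvPolynomial.map (algebraMap k ℂ) (stab f r)) z
      rw [snc_sub, hFg]
      intro _ h5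
      have hcC : algebraMap k ℂ c ≠ 0 := fun h =>
        hc ((algebraMap k ℂ).injective (h.trans (map_zero _).symm))
      rw [map_mul, map_mul, MvPolynomial.map_C, MvPolynomial.eval_C] at h5
      obtain ⟨l, hl⟩ := h3 i₀ ((mul_eq_zero.1 h5).resolve_left hcC)
      refine ⟨l, ?_⟩
      rw [map_mul, MvPolynomial.map_C, MvPolynomial.pderiv_C_mul, map_mul, MvPolynomial.eval_C]
      exact mul_ne_zero hcC hl
    have hNd : ∀ p ∈ T, NdAt (fun _ : Unit => stab f r) p := by
      intro p hp
      obtain ⟨φ, hφ0, hφ1, hφ⟩ := hN p hp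
      refine ⟨φ, hφ0, hφ1, fun w hw => ?_⟩
      obtain ⟨P, hP, hsn⟩ := hφ w hw
      have hev : MvPolynomial.eval p (stab f r) = 0 ↔ MvPolynomial.eval p (g i₀) = 0 := by
        rw [hFg, map_mul, MvPolynomial.eval_C, mul_eq_zero]
        exact ⟨fun h => h.resolve_left hc, Or.inr⟩
      have hcC : algebraMap k ℂ c ≠ 0 := fun h =>
        hc ((algebraMap k ℂ).injective (h.trans (map_zero _).symm))
      refine ⟨fun _ => MvPolynomial.C c * P i₀, fun _ h3 => ?_, fun z hz => ?_⟩
      · obtain ⟨h4, N, h5⟩ := hP i₀ (hev.1 h3)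
        refine ⟨mul_ne_zero (fun h => hc (MvPolynomial.C_injective _ _
          (h.trans (map_zero _).symm))) h4, N, fun α => ?_⟩
        have h6 : ∀ x : MvPowerSeries (SV σ r) k, MvPowerSeries.coeff α
            (MvPolynomial.aeval φ (stab f r)) = c * MvPowerSeries.coeff α
              (MvPolynomial.aeval φ (g i₀)) := by
          intro _
          rw [hFg, map_mul, MvPolynomial.aeval_C, ← Algebra.smul_def, map_smul, smul_eq_mul]
        rw [h6 0, MvPolynomial.coeff_C_mul, (h5 α).2]
        refine ⟨fun h7 => by rw [(h5 α).1 h7, mul_zero], ?_⟩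
        split_ifs
        · rfl
        · rw [mul_zero]
      · rw [snc_sub]
        rintro ⟨_, h3⟩ h4
        have h5 := hsn z hz
        have h6 : (fun i : {i // MvPolynomial.eval p (g i) = 0} =>
            MvPolynomial.map (algebraMap k ℂ) (P i)) = fun _ =>
            MvPolynomial.map (algebraMap k ℂ) (P i₀) := by
          funext i
          rw [huniq i]
        rw [h6, snc_sub] at h5
        rw [map_mul, map_mul, MvPolynomial.map_C, MvPolynomial.eval_C] at h4
        obtain ⟨l, hl⟩ := h5 ⟨i₀, hev.1 h3⟩ ((mul_eq_zero.1 h4).resolve_left hcC)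
        refine ⟨l, ?_⟩
        rw [map_mul, MvPolynomial.map_C, MvPolynomial.pderiv_C_mul, map_mul, MvPolynomial.eval_C]
        exact mul_ne_zero hcC hl
    refine stable_closure4 f hf r (stab f r) AlgEquiv.refl rfl fun s h3 _ => ?_
    have h4 := hU k (SV (SV σ r) s) Unit (by
        rw [Fintype.card_sum]
        omega) (fun _ => stab (stab f r) s)
      (fun _ => stab_ne_C (stab_ne_C hf r) s) (fun _ => 1) (fun _ => one_pos) 1 one_ne_zero
      (T.image (ext0 s)) (sncOut_stab _ _ _ hS) (fun p hp => by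
        obtain ⟨q, hq, rfl⟩ := Finset.mem_image.1 hp
        exact ndAt_stab _ _ _ (hNd q hq))
    rw [MvPolynomial.C_1, one_mul, Fintype.prod_unique, pow_one] at h4
    exact h4

end Pool.Agent.ISO.H56
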