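import Pool.Agent.Helper56_ISO.Bert2
import Pool.Agent.ISO.Defs
import Pool.Agent.Helper70_Simp.Ndeg
import Pool.Agent.Helper91_NDR.Glue

/-!
# Squad ISO: ordinary multiple points are nondegenerate in general linear coordinates
-/

set_option autoImplicit false
set_option linter.unusedVariables false
set_option linter.unusedSectionVars false

namespace Pool.Agent.ISO.H56

open Finset Pool.Agent.Helper32_OMP Pool.Agent.Helper30_Simp

section alg

variable {k : Type} [Field k] {σ : Type} [Fintype σ]

/-- the linear substitution with matrix `A` -/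
noncomputable def ls (A : σ → σ → k) : MvPolynomial σ k →ₐ[k] MvPolynomial σ k :=
  MvPolynomial.aeval fun l => ∑ j, MvPolynomial.C (A l j) * MvPolynomial.X j

theorem ls_homog (A : σ → σ → k) {q : MvPolynomial σ k} {n : ℕ} (h : q.IsHomogeneous n) :
    (ls A q).IsHomogeneous n := by
  have h1 := h.aeval (fun l => ∑ j, MvPolynomial.C (A l j) * MvPolynomial.X j) (n := 1) fun l => by
    refine MvPolynomial.IsHomogeneous.sum _ _ _ fun j _ => ?_
    have h1 := (MvPolynomial.isHomogeneous_C σ (A l j)).mul (MvPolynomial.isHomogeneous_X k j)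
    rwa [zero_add] at h1
  rwa [one_mul] at h1

theorem homog_ls (A : σ → σ → k) (q : MvPolynomial σ k) (n : ℕ) :
    MvPolynomial.homogeneousComponent n (ls A q) = ls A (MvPolynomial.homogeneousComponent n q) := by
  conv_lhs => rw [← MvPolynomial.sum_homogeneousComponent q, map_sum, map_sum]
  by_cases hn : n ∈ Finset.range (q.totalDegree + 1)
  · rw [Finset.sum_eq_single n]
    · exact MvPolynomial.homogeneousComponent_of_mem
        (ls_homog A (MvPolynomial.homogeneousComponent_isHomogeneous n q)) |>.trans (if_pos rfl)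
    · intro m _ hm
      exact (MvPolynomial.homogeneousComponent_of_mem
        (ls_homog A (MvPolynomial.homogeneousComponent_isHomogeneous m q))).trans (if_neg hm.symm)
    · intro h
      exact absurd hn h
  · rw [Finset.sum_eq_zero, MvPolynomial.homogeneousComponent_eq_zero n q, map_zero]
    · rw [Finset.mem_range] at hn
      omega
    · intro m hm
      refine (MvPolynomial.homogeneousComponent_of_mem
        (ls_homog A (MvPolynomial.homogeneousComponent_isHomogeneous m q))).trans (if_neg ?_)
      rintro rfl
      exact hn hm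

/-- evaluation of a linear substitution -/
theorem eval_ls [Algebra k ℂ] (A : σ → σ → k) (q : MvPolynomial σ k) (z : σ → ℂ) :
    MvPolynomial.eval z (MvPolynomial.map (algebraMap k ℂ) (ls A q)) =
      MvPolynomial.eval (fun l => ∑ j, algebraMap k ℂ (A l j) * z j)
        (MvPolynomial.map (algebraMap k ℂ) q) := by
  rw [MvPolynomial.eval_map, MvPolynomial.eval_map, ← MvPolynomial.aeval_def,
    ← MvPolynomial.aeval_def]
  unfold ls
  rw [← AlgHom.comp_apply]
  have h1 : (MvPolynomial.aeval z : MvPolynomial σ k →ₐ[k] ℂ).comp (MvPolynomial.aeval fun l =>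
      ∑ j, MvPolynomial.C (A l j) * MvPolynomial.X j) =
      MvPolynomial.aeval (fun l => ∑ j, algebraMap k ℂ (A l j) * z j) := by
    refine MvPolynomial.algHom_ext fun l => ?_
    rw [AlgHom.comp_apply, MvPolynomial.aeval_X, MvPolynomial.aeval_X, map_sum]
    exact Finset.sum_congr rfl fun j _ => by
      rw [map_mul, MvPolynomial.aeval_X, MvPolynomial.aeval_C]
  rw [h1]

/-- derivatives of a linear substitution -/
theorem pderiv_ls [Algebra k ℂ] (A : σ → σ → k) (q : MvPolynomial σ k) (z : σ → ℂ) (l : σ) :
    MvPolynomial.eval z (MvPolynomial.pderiv l (MvPolynomial.map (algebraMap k ℂ) (ls A q))) =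
      ∑ m, MvPolynomial.eval (fun l => ∑ j, algebraMap k ℂ (A l j) * z j)
        (MvPolynomial.pderiv m (MvPolynomial.map (algebraMap k ℂ) q)) * algebraMap k ℂ (A m l) := by
  classical
  have h1 := chainK (K := k) (fun q : MvPolynomial σ k => MvPolynomial.pderiv l q)
    (fun a b => map_add _ _ _) (fun a b => by
      rw [Derivation.leibniz, smul_eq_mul, smul_eq_mul])
    (fun a => MvPolynomial.pderiv_C) (fun l => ∑ j, MvPolynomial.C (A l j) * MvPolynomial.X j) q
  rw [MvPolynomial.pderiv_map]
  show MvPolynomial.eval z (MvPolynomial.map (algebraMap k ℂ) (MvPolynomial.pderiv l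
    (MvPolynomial.aeval (fun l => ∑ j, MvPolynomial.C (A l j) * MvPolynomial.X j) q))) = _
  rw [h1, map_sum, map_sum]
  refine Finset.sum_congr rfl fun m _ => ?_
  rw [map_mul, map_mul]
  congr 1
  · rw [MvPolynomial.pderiv_map]
    exact eval_ls A (MvPolynomial.pderiv m q) z
  · rw [map_sum, Finset.sum_eq_single l]
    · rw [MvPolynomial.pderiv_C_mul, MvPolynomial.pderiv_X_self, mul_one, MvPolynomial.map_C,
        MvPolynomial.eval_C]
    · intro j _ hj
      rw [MvPolynomial.pderiv_C_mul, MvPolynomial.pderiv_X_of_ne hj, mul_zero]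
    · intro h
      exact absurd (mem_univ _) h

open scoped Classical in
theorem eval_restr [Algebra k ℂ] (S : Finset σ) (q : MvPolynomial σ k) (z : σ → ℂ) :
    MvPolynomial.eval z (MvPolynomial.map (algebraMap k ℂ) (restr S q)) =
      MvPolynomial.eval (fun l => if l ∈ S then 0 else z l)
        (MvPolynomial.map (algebraMap k ℂ) q) := by
  rw [MvPolynomial.eval_map, MvPolynomial.eval_map, ← MvPolynomial.aeval_def,
    ← MvPolynomial.aeval_def]
  have h0 : restr S q = MvPolynomial.aeval
      (fun i => if i ∈ S then (0 : MvPolynomial σ k) else MvPolynomial.X i) q := by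
    unfold restr
    congr
  rw [h0, ← AlgHom.comp_apply]
  have h1 : (MvPolynomial.aeval z : MvPolynomial σ k →ₐ[k] ℂ).comp (MvPolynomial.aeval
      (fun i => if i ∈ S then (0 : MvPolynomial σ k) else MvPolynomial.X i)) =
      MvPolynomial.aeval (fun l => if l ∈ S then 0 else z l) := by
    refine MvPolynomial.algHom_ext fun l => ?_
    rw [AlgHom.comp_apply, MvPolynomial.aeval_X, MvPolynomial.aeval_X]
    by_cases hl : l ∈ S
    · rw [if_pos hl, if_pos hl, map_zero]
    · rw [if_neg hl, if_neg hl, MvPolynomial.aeval_X]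
  rw [h1]

open scoped Classical in
theorem pderiv_restr [Algebra k ℂ] (S : Finset σ) (q : MvPolynomial σ k) (z : σ → ℂ) (l : σ)
    (hl : l ∉ S) :
    MvPolynomial.eval z (MvPolynomial.pderiv l (MvPolynomial.map (algebraMap k ℂ) (restr S q))) =
      MvPolynomial.eval (fun l => if l ∈ S then 0 else z l)
        (MvPolynomial.pderiv l (MvPolynomial.map (algebraMap k ℂ) q)) := by
  have h0 : ∀ q, restr S q = MvPolynomial.aeval
      (fun i => if i ∈ S then (0 : MvPolynomial σ k) else MvPolynomial.X i) q := by
    intro q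
    unfold restr
    congr
  have h1 := chainK (K := k) (fun q : MvPolynomial σ k => MvPolynomial.pderiv l q)
    (fun a b => map_add _ _ _) (fun a b => by
      rw [Derivation.leibniz, smul_eq_mul, smul_eq_mul])
    (fun a => MvPolynomial.pderiv_C)
    (fun i => if i ∈ S then (0 : MvPolynomial σ k) else MvPolynomial.X i) q
  rw [MvPolynomial.pderiv_map, h0]
  have h2 : MvPolynomial.pderiv l (MvPolynomial.aeval
      (fun i => if i ∈ S then (0 : MvPolynomial σ k) else MvPolynomial.X i) q) =
      restr S (MvPolynomial.pderiv l q) := by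
    rw [h0]
    refine h1.trans ?_
    rw [Finset.sum_eq_single l]
    · simp only [if_neg hl]
      rw [MvPolynomial.pderiv_X_self, mul_one]
    · intro j _ hj
      by_cases hjS : j ∈ S
      · simp only [if_pos hjS]
        rw [map_zero, mul_zero]
      · simp only [if_neg hjS]
        rw [MvPolynomial.pderiv_X_of_ne hj, mul_zero]
    · intro h
      exact absurd (mem_univ _) h
  rw [h2, eval_restr, MvPolynomial.pderiv_map]

theorem tra_map [Algebra k ℂ] (p : σ → k) (q : MvPolynomial σ k) :
    tra (fun l => algebraMap k ℂ (p l)) (MvPolynomial.map (algebraMap k ℂ) q) =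
      MvPolynomial.map (algebraMap k ℂ) (tra p q) := by
  unfold tra
  induction q using MvPolynomial.induction_on with
  | C a =>
    rw [MvPolynomial.map_C, MvPolynomial.aeval_C, MvPolynomial.aeval_C]
    show MvPolynomial.C _ = MvPolynomial.map _ (MvPolynomial.C a)
    rw [MvPolynomial.map_C]
  | add p q hp hq => rw [map_add, map_add, map_add, map_add, hp, hq]
  | mul_X p i hp =>
    rw [map_mul, map_mul, map_mul, map_mul, hp, MvPolynomial.map_X, MvPolynomial.aeval_X,
      MvPolynomial.aeval_X, map_add, MvPolynomial.map_X, MvPolynomial.map_C]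

theorem hc_map [Algebra k ℂ] (n : ℕ) (q : MvPolynomial σ k) :
    MvPolynomial.homogeneousComponent n (MvPolynomial.map (algebraMap k ℂ) q) =
      MvPolynomial.map (algebraMap k ℂ) (MvPolynomial.homogeneousComponent n q) := by
  ext α
  rw [MvPolynomial.coeff_homogeneousComponent, MvPolynomial.coeff_map, MvPolynomial.coeff_map,
    MvPolynomial.coeff_homogeneousComponent]
  split_ifs
  · rfl
  · rw [map_zero]

end alg

/-- polynomial coordinates as formal coordinates -/
theorem aeval_coe {k σ : Type} [Field k] (φ : σ → MvPolynomial σ k) (q : MvPolynomial σ k) :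
    MvPolynomial.aeval (fun l => (φ l : MvPowerSeries σ k)) q =
      ((MvPolynomial.aeval φ q : MvPolynomial σ k) : MvPowerSeries σ k) := by
  induction q using MvPolynomial.induction_on with
  | C a =>
    rw [MvPolynomial.aeval_C, MvPolynomial.aeval_C]
    show _ = ((MvPolynomial.C a : MvPolynomial σ k) : MvPowerSeries σ k)
    rw [MvPolynomial.coe_C]
    rfl
  | add p q hp hq => rw [map_add, map_add, hp, hq, MvPolynomial.coe_add]
  | mul_X p i hp =>
    rw [map_mul, map_mul, hp, MvPolynomial.aeval_X, MvPolynomial.aeval_X, MvPolynomial.coe_mul]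

open scoped Classical in
/-- **ordinary multiple points are nondegenerate** -/
theorem ordNd {k σ ι : Type} [Field k] [Algebra k ℂ] [Fintype σ] [Fintype ι] [Nonempty σ]
    (f : ι → MvPolynomial σ k) (p : σ → k)
    (hO : OrdAt (fun i => MvPolynomial.map (algebraMap k ℂ) (f i))
      fun l => algebraMap k ℂ (p l)) : NdAt f p := by
  have hk : CharZero k := (RingHom.charZero_iff (algebraMap k ℂ).injective).2 inferInstance
  have hinj := (algebraMap k ℂ).injective
  obtain ⟨d, hd, hS⟩ := hO
  obtain ⟨F, hF⟩ : ∃ F : ι → MvPolynomial σ k, F = fun i =>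
      MvPolynomial.homogeneousComponent (d i) (tra p (f i)) := ⟨_, rfl⟩
  have hF' : ∀ i, MvPolynomial.homogeneousComponent (d i) (tra (fun l => algebraMap k ℂ (p l))
      (MvPolynomial.map (algebraMap k ℂ) (f i))) = MvPolynomial.map (algebraMap k ℂ) (F i) := by
    intro i
    rw [tra_map, hc_map, hF]
  have hlow : ∀ i, ∀ j < d i, MvPolynomial.homogeneousComponent j (tra p (f i)) = 0 := by
    intro i j hj
    have h1 := hd i j hj
    rw [tra_map, hc_map] at h1
    exact MvPolynomial.map_injective _ hinj (by rw [h1, map_zero])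
  simp only [hF'] at hS
  have hhom : ∀ i, (F i).IsHomogeneous (d i) := by
    intro i
    rw [hF]
    exact MvPolynomial.homogeneousComponent_isHomogeneous _ _
  obtain ⟨h, hh⟩ := coords (fun i => MvPolynomial.map (algebraMap k ℂ) (F i)) d
    (fun i => (hhom i).map _) hS
  obtain ⟨H, hH⟩ : ∃ H : Matrix σ σ k, H = fun t l => ((h t l : ℚ) : k) := ⟨_, rfl⟩
  have hHc : ∀ t l, algebraMap k ℂ (H t l) = ((h t l : ℚ) : ℂ) := by
    intro t l
    rw [hH]
    exact map_ratCast _ _
  have hdet : H.det ≠ 0 := by
    intro h0
    have h1 : (H.map (algebraMap k ℂ)).det = 0 := by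
      rw [← RingHom.mapMatrix_apply, ← RingHom.map_det, h0, map_zero]
    obtain ⟨v, hv, hv0⟩ := Matrix.exists_mulVec_eq_zero_iff.2 h1
    obtain ⟨b, hb, hb0⟩ := Matrix.exists_vecMul_eq_zero_iff.2 h1
    have h2 : ∀ t, ∑ l, ((h t l : ℚ) : ℂ) * v l = 0 := by
      intro t
      have h3 := congrFun hv0 t
      rw [Matrix.mulVec, dotProduct, Pi.zero_apply] at h3
      rw [← h3]
      exact Finset.sum_congr rfl fun l _ => by rw [Matrix.map_apply, hHc]
    have h4 := (hh v hv (fun _ => 0) b (fun _ _ => rfl) (fun t ht => absurd (h2 t) ht)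
      (fun l => by
        rw [Finset.sum_eq_zero fun i _ => zero_mul _, zero_add]
        have h3 := congrFun hb0 l
        rw [Matrix.vecMul, dotProduct, Pi.zero_apply] at h3
        rw [← h3]
        exact Finset.sum_congr rfl fun t _ => by rw [Matrix.map_apply, hHc])).2
    exact hb (funext h4)
  have hunit : IsUnit H.det := isUnit_iff_ne_zero.2 hdet
  obtain ⟨A, hA⟩ : ∃ A : Matrix σ σ k, A = H⁻¹ := ⟨_, rfl⟩
  have hHA : H * A = 1 := by rw [hA]; exact Matrix.mul_nonsing_inv H hunit
  have hAH : A * H = 1 := by rw [hA]; exact Matrix.nonsing_inv_mul H hunit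
  obtain ⟨φ, hφ⟩ : ∃ φ : σ → MvPolynomial σ k, φ = fun l => MvPolynomial.C (p l) +
      ∑ j, MvPolynomial.C (A l j) * MvPolynomial.X j := ⟨_, rfl⟩
  have hcφ : ∀ l j, MvPolynomial.coeff (Finsupp.single j 1) (φ l) = A l j := by
    intro l j
    rw [hφ]
    simp only [MvPolynomial.coeff_add, MvPolynomial.coeff_sum, MvPolynomial.coeff_C_mul]
    rw [MvPolynomial.coeff_C, if_neg, zero_add, Finset.sum_eq_single j]
    · rw [MvPolynomial.coeff_X, if_pos rfl, mul_one]
    · intro i _ hi
      rw [MvPolynomial.coeff_X, if_neg, mul_zero]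
      intro h1
      exact hi (Finsupp.single_left_injective one_ne_zero h1)
    · intro h1
      exact absurd (mem_univ _) h1
    · intro h1
      have h2 := DFunLike.congr_fun h1 j
      rw [Finsupp.single_eq_same] at h2
      exact zero_ne_one h2
  have hφ0 : ∀ l, MvPolynomial.constantCoeff (φ l) = p l := by
    intro l
    rw [hφ]
    simp
  have hg : ∀ i, MvPolynomial.aeval φ (f i) = ls A (tra p (f i)) := by
    intro i
    unfold ls tra
    rw [← AlgHom.comp_apply]
    congr 1
    refine MvPolynomial.algHom_ext fun l => ?_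
    rw [AlgHom.comp_apply, MvPolynomial.aeval_X, MvPolynomial.aeval_X, map_add,
      MvPolynomial.aeval_X, MvPolynomial.aeval_C, hφ, add_comm]
    rfl
  refine ⟨fun l => (φ l : MvPowerSeries σ k), fun l => ?_, ?_, fun w hw => ?_⟩
  · rw [← MvPowerSeries.coeff_zero_eq_constantCoeff_apply, MvPolynomial.coeff_coe,
      ← MvPolynomial.constantCoeff_eq]
    exact hφ0 l
  · have h1 : (fun l j : σ => MvPowerSeries.coeff (Finsupp.single j 1)
        (φ l : MvPowerSeries σ k)) = fun l => A l := by
      funext l j
      rw [MvPolynomial.coeff_coe, hcφ]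
    rw [h1]
    refine Matrix.linearIndependent_rows_iff_isUnit.2 ?_
    rw [hA, Matrix.isUnit_iff_isUnit_det, Matrix.det_nonsing_inv]
    exact hunit.ringInverse
  -- the initial forms
  obtain ⟨l₀, -, hl₀⟩ := Finset.exists_min_image (univ : Finset σ) w univ_nonempty
  obtain ⟨S, hSd⟩ : ∃ S : Finset σ, S = univ.filter fun l => w l ≠ w l₀ := ⟨_, rfl⟩
  have hmS : ∀ l, l ∈ S ↔ w l ≠ w l₀ := by
    intro l
    rw [hSd, Finset.mem_filter]
    exact ⟨fun h => h.2, fun h => ⟨mem_univ _, h⟩⟩
  have hl₀S : l₀ ∉ S := by
    rw [hmS]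
    exact fun h => h rfl
  obtain ⟨P, hP⟩ : ∃ P : ι → MvPolynomial σ k, P = fun i => restr S (ls A (F i)) := ⟨_, rfl⟩
  have hcoefP : ∀ i α, MvPolynomial.coeff α (P i) = if ∀ l ∈ S, α l = 0 then
      MvPolynomial.coeff α (ls A (F i)) else 0 := by
    intro i α
    have h1 := H70.restr_eq_part (ls A (F i)) ((ls A (F i)).support.filter fun α =>
      ∀ l ∈ S, α l = 0) S (fun α => by rw [Finset.mem_filter])
    rw [hP]
    show MvPolynomial.coeff α (restr S (ls A (F i))) = _
    rw [h1]
    have h2 := Pool.Agent.NDR.H91.coeff_prt (ls A (F i)) ((ls A (F i)).support.filter fun α =>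
      ∀ l ∈ S, α l = 0) α
    refine h2.trans ?_
    by_cases h3 : ∀ l ∈ S, α l = 0
    · rw [if_pos h3]
      by_cases h4 : α ∈ (ls A (F i)).support
      · rw [if_pos (Finset.mem_filter.2 ⟨h4, h3⟩)]
      · rw [if_neg (fun h => h4 (Finset.mem_filter.1 h).1)]
        exact (MvPolynomial.notMem_support_iff.1 h4).symm
    · rw [if_neg h3, if_neg (fun h => h3 (Finset.mem_filter.1 h).2)]
  -- simple normal crossings in the torus
  have hsnc : ∀ z : σ → ℂ, (∀ l, z l ≠ 0) →
      SncAt (fun i => MvPolynomial.map (algebraMap k ℂ) (P i)) z := by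
    intro z hz
    rw [snc_iff]
    intro c hc hs
    obtain ⟨z', hz'⟩ : ∃ z' : σ → ℂ, z' = fun l => if l ∈ S then 0 else z l := ⟨_, rfl⟩
    obtain ⟨x, hx⟩ : ∃ x : σ → ℂ, x = fun l => ∑ j, algebraMap k ℂ (A l j) * z' j := ⟨_, rfl⟩
    have hev : ∀ i, MvPolynomial.eval z (MvPolynomial.map (algebraMap k ℂ) (P i)) =
        MvPolynomial.eval x (MvPolynomial.map (algebraMap k ℂ) (F i)) := by
      intro i
      rw [hP, hx, hz']
      show MvPolynomial.eval z (MvPolynomial.map (algebraMap k ℂ) (restr S (ls A (F i)))) = _
      rw [eval_restr, eval_ls]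
    have hHx : ∀ t, ∑ l, ((h t l : ℚ) : ℂ) * x l = z' t := by
      intro t
      have h1 : ∀ j, ∑ l, algebraMap k ℂ (H t l) * algebraMap k ℂ (A l j) =
          if t = j then 1 else 0 := by
        intro j
        have h2 := congrArg (algebraMap k ℂ) (congrFun (congrFun hHA t) j)
        rw [Matrix.mul_apply, map_sum, Matrix.one_apply] at h2
        rw [← Finset.sum_congr rfl fun l _ => map_mul (algebraMap k ℂ) (H t l) (A l j), h2]
        split_ifs
        · exact map_one _
        · exact map_zero _
      calc ∑ l, ((h t l : ℚ) : ℂ) * x l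
          = ∑ l, ∑ j, algebraMap k ℂ (H t l) * algebraMap k ℂ (A l j) * z' j := by
            refine Finset.sum_congr rfl fun l _ => ?_
            rw [hx, Finset.mul_sum]
            exact Finset.sum_congr rfl fun j _ => by rw [hHc]; ring
        _ = ∑ j, (∑ l, algebraMap k ℂ (H t l) * algebraMap k ℂ (A l j)) * z' j := by
            rw [Finset.sum_comm]
            exact Finset.sum_congr rfl fun j _ => by rw [Finset.sum_mul]
        _ = z' t := by
            simp only [h1]
            rw [Finset.sum_eq_single t]
            · rw [if_pos rfl, one_mul]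
            · intro j _ hj
              rw [if_neg hj.symm, zero_mul]
            · intro h1
              exact absurd (mem_univ _) h1
    have hx0 : x ≠ 0 := by
      intro h0
      have h1 := hHx l₀
      rw [h0] at h1
      simp only [Pi.zero_apply, mul_zero, Finset.sum_const_zero] at h1
      rw [hz'] at h1
      simp only [if_neg hl₀S] at h1
      exact hz l₀ h1.symm
    obtain ⟨v, hv⟩ : ∃ v : σ → ℂ, v = fun m => ∑ i, c i * MvPolynomial.eval x
        (MvPolynomial.pderiv m (MvPolynomial.map (algebraMap k ℂ) (F i))) := ⟨_, rfl⟩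
    obtain ⟨b, hb⟩ : ∃ b : σ → ℂ, b = fun t => -∑ m, v m * algebraMap k ℂ (A m t) := ⟨_, rfl⟩
    have hbS : ∀ t, t ∉ S → b t = 0 := by
      intro t ht
      have h1 := hs t
      have h2 : ∀ i, MvPolynomial.eval z (MvPolynomial.pderiv t
          (MvPolynomial.map (algebraMap k ℂ) (P i))) = ∑ m, MvPolynomial.eval x
          (MvPolynomial.pderiv m (MvPolynomial.map (algebraMap k ℂ) (F i))) *
          algebraMap k ℂ (A m t) := by
        intro i
        rw [hP, hx, hz']
        show MvPolynomial.eval z (MvPolynomial.pderiv t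
          (MvPolynomial.map (algebraMap k ℂ) (restr S (ls A (F i))))) = _
        rw [pderiv_restr S _ z t ht, pderiv_ls]
      simp only [h2] at h1
      rw [hb]
      simp only
      rw [neg_eq_zero, ← h1, hv]
      simp only [Finset.sum_mul, Finset.mul_sum]
      rw [Finset.sum_comm]
      exact Finset.sum_congr rfl fun i _ => Finset.sum_congr rfl fun m _ => by ring
    refine (hh x hx0 c b (fun i hi => hc i (by rw [hev]; exact hi)) (fun t ht => ?_)
      (fun l => ?_)).1
    · rw [hHx] at ht
      refine hbS t fun h1 => ht ?_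
      rw [hz']
      simp only [if_pos h1]
    · have h1 : ∀ m, ∑ t, algebraMap k ℂ (A m t) * algebraMap k ℂ (H t l) =
          if m = l then 1 else 0 := by
        intro m
        have h2 := congrArg (algebraMap k ℂ) (congrFun (congrFun hAH m) l)
        rw [Matrix.mul_apply, map_sum, Matrix.one_apply] at h2
        rw [← Finset.sum_congr rfl fun t _ => map_mul (algebraMap k ℂ) (A m t) (H t l), h2]
        split_ifs
        · exact map_one _
        · exact map_zero _
      have h3 : ∑ t, b t * ((h t l : ℚ) : ℂ) = - v l := by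
        calc ∑ t, b t * ((h t l : ℚ) : ℂ)
            = -∑ t, ∑ m, v m * (algebraMap k ℂ (A m t) * algebraMap k ℂ (H t l)) := by
              rw [← Finset.sum_neg_distrib]
              refine Finset.sum_congr rfl fun t _ => ?_
              rw [hb, neg_mul, Finset.sum_mul]
              congr 1
              exact Finset.sum_congr rfl fun m _ => by rw [hHc]; ring
          _ = -∑ m, v m * ∑ t, algebraMap k ℂ (A m t) * algebraMap k ℂ (H t l) := by
              rw [Finset.sum_comm]
              congr 1
              exact Finset.sum_congr rfl fun m _ => by rw [Finset.mul_sum]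
          _ = - v l := by
              simp only [h1]
              congr 1
              rw [Finset.sum_eq_single l]
              · rw [if_pos rfl, mul_one]
              · intro m _ hm
                rw [if_neg hm, mul_zero]
              · intro h1
                exact absurd (mem_univ _) h1
      have h4 : ∑ i, c i * MvPolynomial.eval x (MvPolynomial.pderiv l
          (MvPolynomial.map (algebraMap k ℂ) (F i))) = v l := by
        rw [hv]
      rw [h3, h4, add_neg_cancel]
  have hPne : ∀ i, P i ≠ 0 := by
    intro i hi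
    have h1 := (snc_iff _ (fun _ => (1 : ℂ))).1 (hsnc (fun _ => 1) fun _ => one_ne_zero)
      (fun j => if j = i then 1 else 0) (fun j hj => by
        by_cases hji : j = i
        · rw [hji, hi, map_zero, map_zero] at hj
          exact absurd rfl hj
        · exact if_neg hji) (fun l => by
        refine Finset.sum_eq_zero fun j _ => ?_
        by_cases hji : j = i
        · rw [hji, hi, map_zero, map_zero, map_zero, mul_zero]
        · rw [if_neg hji, zero_mul]) i
    rw [if_pos rfl] at h1
    exact one_ne_zero h1
  refine ⟨P, fun i _ => ⟨hPne i, d i * w l₀, fun α => ?_⟩, fun z hz => ?_⟩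
  · have hcg : MvPowerSeries.coeff α (MvPolynomial.aeval (fun l => (φ l : MvPowerSeries σ k))
        (f i)) = MvPolynomial.coeff α (ls A (tra p (f i))) := by
      rw [aeval_coe, MvPolynomial.coeff_coe, hg]
    have hcomp : MvPolynomial.coeff α (ls A (tra p (f i))) = MvPolynomial.coeff α
        (ls A (MvPolynomial.homogeneousComponent α.degree (tra p (f i)))) := by
      rw [← homog_ls, MvPolynomial.coeff_homogeneousComponent, if_pos rfl]
    have hle : α.degree * w l₀ ≤ ∑ l, w l * α l := by
      rw [Finsupp.degree_eq_sum, Finset.sum_mul]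
      refine Finset.sum_le_sum fun l _ => ?_
      rw [mul_comm (w l)]
      exact Nat.mul_le_mul_left _ (hl₀ l (mem_univ _))
    have hw₀ := hw l₀
    refine ⟨fun hlt => ?_, ?_⟩
    · rw [hcg, hcomp]
      have h1 : α.degree < d i := by
        by_contra h2
        have h3 := Nat.mul_le_mul_right (w l₀) (not_lt.1 h2)
        omega
      rw [hlow i _ h1, map_zero, MvPolynomial.coeff_zero]
    · rw [hcoefP]
      by_cases h1 : ∀ l ∈ S, α l = 0
      · rw [if_pos h1]
        have heq : ∑ l, w l * α l = α.degree * w l₀ := by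
          rw [Finsupp.degree_eq_sum, Finset.sum_mul]
          refine Finset.sum_congr rfl fun l _ => ?_
          by_cases hl : l ∈ S
          · rw [h1 l hl, mul_zero, zero_mul]
          · rw [hmS, not_not] at hl
            rw [hl, mul_comm]
        rw [heq]
        by_cases h2 : α.degree = d i
        · rw [h2, if_pos rfl, hcg, hcomp, h2, hF]
        · rw [if_neg]
          · refine (ls_homog A (hhom i)).coeff_eq_zero ?_
            exact h2
          · intro h3
            exact h2 (Nat.eq_of_mul_eq_mul_right hw₀ h3)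
      · rw [if_neg h1]
        split_ifs with h2
        · rw [hcg, hcomp]
          have h3 : α.degree < d i := by
            push Not at h1
            obtain ⟨l, hl, hαl⟩ := h1
            have h4 : α.degree * w l₀ < ∑ l, w l * α l := by
              rw [Finsupp.degree_eq_sum, Finset.sum_mul]
              refine Finset.sum_lt_sum (fun l _ => ?_) ⟨l, mem_univ _, ?_⟩
              · rw [mul_comm (w l)]
                exact Nat.mul_le_mul_left _ (hl₀ l (mem_univ _))
              · rw [mul_comm (w l)]
                refine Nat.mul_lt_mul_of_pos_left ?_ (Nat.pos_of_ne_zero hαl)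
                exact lt_of_le_of_ne (hl₀ l (mem_univ _)) ((hmS l).1 hl).symm
            rw [h2] at h4
            exact lt_of_mul_lt_mul_right h4 (Nat.zero_le _)
          rw [hlow i _ h3, map_zero, MvPolynomial.coeff_zero]
        · rfl
  · have h1 := hsnc z hz
    unfold SncAt at h1 ⊢
    refine h1.comp (fun i : {i : {i // MvPolynomial.eval p (f i) = 0} //
      MvPolynomial.eval z (MvPolynomial.map (algebraMap k ℂ) (P i.1)) = 0} =>
        (⟨i.1.1, i.2⟩ : {i // MvPolynomial.eval z
          (MvPolynomial.map (algebraMap k ℂ) (P i)) = 0})) ?_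
    intro a b hab
    have h2 := congrArg Subtype.val hab
    exact Subtype.ext (Subtype.ext h2)

end Pool.Agent.ISO.H56
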