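import Pool.Agent.Helper56_ISO.Bert2
import Pool.Agent.ISO.Defs
import Pool.Agent.Helper56_GEN.TorD

/-!
# Squad ISO: stabilization
-/

set_option autoImplicit false
set_option linter.unusedVariables false
set_option linter.unusedSectionVars false

namespace Pool.Agent.ISO.H56

open Finset Pool.Agent.Helper32_OMP Pool.Agent.Helper8_CR

theorem snc_sub {σ ι : Type} [Fintype ι] [Subsingleton ι] (g : MvPolynomial σ ℂ) (z : σ → ℂ) :
    SncAt (fun _ : ι => g) z ↔ (∀ _ : ι, MvPolynomial.eval z g = 0 →
      ∃ l, MvPolynomial.eval z (MvPolynomial.pderiv l g) ≠ 0) := by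
  rw [snc_iff]
  constructor
  · intro h i h0
    by_contra hno
    push Not at hno
    have h1 := h (fun _ => 1) (fun _ h1 => absurd h0 h1) (fun l =>
      Finset.sum_eq_zero fun j _ => by rw [hno l, mul_zero]) i
    exact one_ne_zero h1
  · intro h c hc hs i
    by_cases h0 : MvPolynomial.eval z g = 0
    · obtain ⟨l, hl⟩ := h i h0
      have h1 := hs l
      rw [Fintype.sum_subsingleton _ i] at h1
      exact (mul_eq_zero.1 h1).resolve_right hl
    · exact hc i h0

section basic

variable {K τ : Type} [Field K]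

theorem eval_stab (G : MvPolynomial τ K) (s : ℕ) (z : SV τ s → K) :
    MvPolynomial.eval z (stab G s) = MvPolynomial.eval (fun l => z (Sum.inl l)) G +
      ∑ j : Fin s, z (Sum.inr (Sum.inl j)) * z (Sum.inr (Sum.inr j)) := by
  unfold stab
  rw [map_add, MvPolynomial.eval_rename, map_sum]
  congr 1
  exact Finset.sum_congr rfl fun j _ => by
    rw [map_mul, MvPolynomial.eval_X, MvPolynomial.eval_X]

theorem pderiv_uv (s : ℕ) (l : τ) (j : Fin s) :
    MvPolynomial.pderiv (Sum.inl l : SV τ s) (MvPolynomial.X (Sum.inr (Sum.inl j)) *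
      MvPolynomial.X (Sum.inr (Sum.inr j)) : MvPolynomial (SV τ s) K) = 0 := by
  classical
  rw [Derivation.leibniz, MvPolynomial.pderiv_X_of_ne (by simp), MvPolynomial.pderiv_X_of_ne
    (by simp), smul_zero, smul_zero, add_zero]

theorem pderiv_stab_inl (G : MvPolynomial τ K) (s : ℕ) (z : SV τ s → K) (l : τ) :
    MvPolynomial.eval z (MvPolynomial.pderiv (Sum.inl l) (stab G s)) =
      MvPolynomial.eval (fun l => z (Sum.inl l)) (MvPolynomial.pderiv l G) := by
  unfold stab
  rw [map_add, MvPolynomial.pderiv_rename Sum.inl_injective, map_sum,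
    Finset.sum_eq_zero fun j _ => pderiv_uv s l j, add_zero, MvPolynomial.eval_rename]
  rfl

theorem pderiv_ren_inr (G : MvPolynomial τ K) (s : ℕ) (i : Fin s ⊕ Fin s) :
    MvPolynomial.pderiv (Sum.inr i : SV τ s) (MvPolynomial.rename Sum.inl G) = 0 := by
  classical
  refine MvPolynomial.pderiv_eq_zero_of_notMem_vars fun h => ?_
  have h1 := MvPolynomial.vars_rename _ _ h
  rw [Finset.mem_image] at h1
  obtain ⟨a, _, ha⟩ := h1
  exact Sum.inl_ne_inr ha

theorem pderiv_stab_u (G : MvPolynomial τ K) (s : ℕ) (z : SV τ s → K) (j : Fin s) :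
    MvPolynomial.eval z (MvPolynomial.pderiv (Sum.inr (Sum.inl j)) (stab G s)) =
      z (Sum.inr (Sum.inr j)) := by
  classical
  unfold stab
  rw [map_add, pderiv_ren_inr, zero_add, map_sum, Finset.sum_eq_single j]
  · rw [Derivation.leibniz, MvPolynomial.pderiv_X_self, MvPolynomial.pderiv_X_of_ne (by simp),
      smul_zero, zero_add, smul_eq_mul, mul_one, MvPolynomial.eval_X]
  · intro i _ hi
    rw [Derivation.leibniz, MvPolynomial.pderiv_X_of_ne (by simp), MvPolynomial.pderiv_X_of_ne
      (by simp [hi]), smul_zero, smul_zero, add_zero]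
  · intro h
    exact absurd (mem_univ _) h

theorem pderiv_stab_v (G : MvPolynomial τ K) (s : ℕ) (z : SV τ s → K) (j : Fin s) :
    MvPolynomial.eval z (MvPolynomial.pderiv (Sum.inr (Sum.inr j)) (stab G s)) =
      z (Sum.inr (Sum.inl j)) := by
  classical
  unfold stab
  rw [map_add, pderiv_ren_inr, zero_add, map_sum, Finset.sum_eq_single j]
  · rw [Derivation.leibniz, MvPolynomial.pderiv_X_self, MvPolynomial.pderiv_X_of_ne (by simp),
      smul_zero, add_zero, smul_eq_mul, mul_one, MvPolynomial.eval_X]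
  · intro i _ hi
    rw [Derivation.leibniz, MvPolynomial.pderiv_X_of_ne (by simp [hi]),
      MvPolynomial.pderiv_X_of_ne (by simp), smul_zero, smul_zero, add_zero]
  · intro h
    exact absurd (mem_univ _) h

theorem map_stab' {k : Type} [Field k] [Algebra k K] (G : MvPolynomial τ k) (s : ℕ) :
    MvPolynomial.map (algebraMap k K) (stab G s) =
      stab (MvPolynomial.map (algebraMap k K) G) s := by
  unfold stab
  rw [map_add, MvPolynomial.map_rename, map_sum]
  congr 1
  exact Finset.sum_congr rfl fun j _ => by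
    rw [map_mul, MvPolynomial.map_X, MvPolynomial.map_X]

end basic

variable {k : Type} [Field k] [Algebra k ℂ] {τ : Type} [Fintype τ]

/-- the point `(p, 0)` -/
def ext0 (s : ℕ) (p : τ → k) : SV τ s → k := Sum.elim p fun _ => 0

open scoped Classical in
theorem sncOut_stab (G : MvPolynomial τ k) (T : Finset (τ → k)) (s : ℕ)
    (h : SncOut (fun _ : Unit => G) T) :
    SncOut (fun _ : Unit => stab G s) (T.image (ext0 s)) := by
  intro z hz
  show SncAt (fun _ : Unit => MvPolynomial.map (algebraMap k ℂ) (stab G s)) z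
  rw [snc_sub, map_stab']
  intro _ h0
  by_contra hno
  push Not at hno
  have hu : ∀ j : Fin s, z (Sum.inr (Sum.inr j)) = 0 := by
    intro j
    rw [← pderiv_stab_u (MvPolynomial.map (algebraMap k ℂ) G) s z j]
    exact hno _
  have hv : ∀ j : Fin s, z (Sum.inr (Sum.inl j)) = 0 := by
    intro j
    rw [← pderiv_stab_v (MvPolynomial.map (algebraMap k ℂ) G) s z j]
    exact hno _
  have hG : MvPolynomial.eval (fun l => z (Sum.inl l)) (MvPolynomial.map (algebraMap k ℂ) G) = 0 := by
    rw [eval_stab, Finset.sum_eq_zero fun j _ => by rw [hu j, mul_zero], add_zero] at h0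
    exact h0
  have hsn := h (fun l => z (Sum.inl l)) (fun p hp hzp => by
    refine hz (ext0 s p) (Finset.mem_image_of_mem _ hp) ?_
    funext i
    rcases i with l | j | j
    · exact congrFun hzp l
    · rw [hv j]
      exact (map_zero _).symm
    · rw [hu j]
      exact (map_zero _).symm)
  rw [snc_sub] at hsn
  obtain ⟨l, hl⟩ := hsn () hG
  refine hl ?_
  rw [← pderiv_stab_inl (MvPolynomial.map (algebraMap k ℂ) G) s z l]
  exact hno _

theorem eval_ext0 (G : MvPolynomial τ k) (s : ℕ) (p : τ → k) :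
    MvPolynomial.eval (ext0 s p) (stab G s) = MvPolynomial.eval p G := by
  rw [eval_stab]
  have h1 : ∑ j : Fin s, ext0 s p (Sum.inr (Sum.inl j)) * ext0 s p (Sum.inr (Sum.inr j)) = 0 :=
    Finset.sum_eq_zero fun j _ => mul_zero _
  rw [h1, add_zero]
  rfl

/-- the exponent of `u_j v_j` -/
noncomputable def uv (τ : Type) {s : ℕ} (j : Fin s) : SV τ s →₀ ℕ :=
  Finsupp.single (Sum.inr (Sum.inl j)) 1 + Finsupp.single (Sum.inr (Sum.inr j)) 1

theorem uv_apply_u {s : ℕ} (i j : Fin s) :
    uv τ i (Sum.inr (Sum.inl j)) = if i = j then 1 else 0 := by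
  classical
  unfold uv
  rw [Finsupp.add_apply, Finsupp.single_apply, Finsupp.single_apply]
  simp

theorem uv_ne_emb {s : ℕ} (j : Fin s) (β : τ →₀ ℕ) :
    Finsupp.embDomain (Function.Embedding.inl : τ ↪ SV τ s) β ≠ uv τ j := by
  intro h
  have h1 := DFunLike.congr_fun h (Sum.inr (Sum.inl j))
  rw [uv_apply_u, if_pos rfl, Finsupp.embDomain_notin_range] at h1
  · exact zero_ne_one h1
  · rintro ⟨a, ha⟩
    exact Sum.inl_ne_inr ha

theorem wt_uv {s : ℕ} (w : SV τ s → ℕ) (j : Fin s) :
    ∑ l, w l * uv τ j l = w (Sum.inr (Sum.inl j)) + w (Sum.inr (Sum.inr j)) := by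
  classical
  unfold uv
  simp only [Finsupp.add_apply, mul_add]
  rw [Finset.sum_add_distrib]
  congr 1
  · rw [Finset.sum_eq_single (Sum.inr (Sum.inl j) : SV τ s)]
    · rw [Finsupp.single_eq_same, mul_one]
    · intro l _ hl
      rw [Finsupp.single_eq_of_ne hl, mul_zero]
    · intro h
      exact absurd (mem_univ _) h
  · rw [Finset.sum_eq_single (Sum.inr (Sum.inr j) : SV τ s)]
    · rw [Finsupp.single_eq_same, mul_one]
    · intro l _ hl
      rw [Finsupp.single_eq_of_ne hl, mul_zero]
    · intro h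
      exact absurd (mem_univ _) h

theorem wt_emb {s : ℕ} (w : SV τ s → ℕ) (β : τ →₀ ℕ) :
    ∑ l, w l * Finsupp.embDomain (Function.Embedding.inl : τ ↪ SV τ s) β l =
      ∑ l, w (Sum.inl l) * β l := by
  rw [Fintype.sum_sum_type]
  have h1 : ∑ i : Fin s ⊕ Fin s, w (Sum.inr i) *
      Finsupp.embDomain (Function.Embedding.inl : τ ↪ SV τ s) β (Sum.inr i) = 0 := by
    refine Finset.sum_eq_zero fun i _ => ?_
    rw [Finsupp.embDomain_notin_range, mul_zero]
    rintro ⟨a, ha⟩
    exact Sum.inl_ne_inr ha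
  rw [h1, add_zero]
  refine Finset.sum_congr rfl fun l _ => ?_
  congr 1
  exact Finsupp.embDomain_apply_self (Function.Embedding.inl : τ ↪ SV τ s) β l

theorem emb_inr {s : ℕ} (β : τ →₀ ℕ) (i : Fin s ⊕ Fin s) :
    Finsupp.embDomain (Function.Embedding.inl : τ ↪ SV τ s) β (Sum.inr i) = 0 := by
  rw [Finsupp.embDomain_notin_range]
  rintro ⟨a, ha⟩
  exact Sum.inl_ne_inr ha

theorem not_range {s : ℕ} {α : SV τ s →₀ ℕ}
    (h : ∀ β : τ →₀ ℕ, α ≠ Finsupp.embDomain (Function.Embedding.inl : τ ↪ SV τ s) β) :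
    α ∉ Set.range (Finsupp.mapDomain (Function.Embedding.inl : τ ↪ SV τ s) :
      (τ →₀ ℕ) → (SV τ s →₀ ℕ)) := by
  rintro ⟨β, hβ⟩
  refine h β ?_
  rw [← hβ, Finsupp.embDomain_eq_mapDomain]

open scoped Classical in
/-- a stabilization of a nondegenerate point is nondegenerate -/
theorem ndAt_stab (G : MvPolynomial τ k) (p : τ → k) (s : ℕ) (h : NdAt (fun _ : Unit => G) p) :
    NdAt (fun _ : Unit => stab G s) (ext0 s p) := by
  obtain ⟨φ, hφ0, hφ1, hφ⟩ := h
  obtain ⟨e, he⟩ : ∃ e : τ ↪ SV τ s, e = Function.Embedding.inl := ⟨_, rfl⟩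
  have hel : ∀ l, e l = Sum.inl l := fun l => by rw [he]; rfl
  obtain ⟨φ', hφ'⟩ : ∃ φ' : SV τ s → MvPowerSeries (SV τ s) k,
      φ' = Sum.elim (fun l => MvPowerSeries.rename e (φ l)) fun i => MvPowerSeries.X (Sum.inr i) :=
    ⟨_, rfl⟩
  obtain ⟨g, hg⟩ : ∃ g : MvPowerSeries τ k, g = MvPolynomial.aeval φ G := ⟨_, rfl⟩
  -- the new series
  have hg' : MvPolynomial.aeval φ' (stab G s) = MvPowerSeries.rename e g +
      ∑ j : Fin s, MvPowerSeries.monomial (uv τ j) (1 : k) := by
    unfold stab
    rw [map_add, MvPolynomial.aeval_rename, map_sum]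
    congr 1
    · rw [hg, ← AlgHom.comp_apply]
      congr 1
      refine MvPolynomial.algHom_ext fun l => ?_
      rw [AlgHom.comp_apply, MvPolynomial.aeval_X, MvPolynomial.aeval_X, hφ']
      rfl
    · refine Finset.sum_congr rfl fun j _ => ?_
      rw [map_mul, MvPolynomial.aeval_X, MvPolynomial.aeval_X, hφ', Sum.elim_inr, Sum.elim_inr,
        MvPowerSeries.X, MvPowerSeries.X, MvPowerSeries.monomial_mul_monomial, one_mul]
      rfl
  refine ⟨φ', ?_, ?_, fun w hw => ?_⟩
  · rintro (l | i)
    · rw [hφ', Sum.elim_inl, MvPowerSeries.constantCoeff_rename]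
      exact hφ0 l
    · rw [hφ', Sum.elim_inr, MvPowerSeries.constantCoeff_X]
      rfl
  · rw [Fintype.linearIndependent_iff] at hφ1 ⊢
    intro c hc
    have hrow : ∀ m j, MvPowerSeries.coeff (Finsupp.single (Sum.inl j : SV τ s) 1) (φ' m) =
        Sum.elim (fun l => MvPowerSeries.coeff (Finsupp.single j 1) (φ l)) (fun _ => (0 : k)) m := by
      rintro (l | i) j
      · rw [hφ', Sum.elim_inl, Sum.elim_inl]
        have h1 : Finsupp.single (Sum.inl j : SV τ s) 1 = Finsupp.embDomain e
            (Finsupp.single j 1) := by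
          rw [Finsupp.embDomain_single, hel]
        rw [h1, MvPowerSeries.coeff_embDomain_rename]
      · rw [hφ', Sum.elim_inr, Sum.elim_inr, MvPowerSeries.coeff_X, if_neg]
        intro h1
        exact Sum.inl_ne_inr (Finsupp.single_left_injective one_ne_zero h1)
    have hrow' : ∀ m i, MvPowerSeries.coeff (Finsupp.single (Sum.inr i : SV τ s) 1) (φ' m) =
        if m = Sum.inr i then (1 : k) else 0 := by
      rintro (l | i') i
      · rw [hφ', Sum.elim_inl, if_neg Sum.inl_ne_inr, he]
        refine MvPowerSeries.coeff_rename_eq_zero _ _ (not_range fun β h1 => ?_)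
        have h2 := DFunLike.congr_fun h1 (Sum.inr i)
        rw [Finsupp.single_eq_same, emb_inr] at h2
        exact one_ne_zero h2
      · rw [hφ', Sum.elim_inr, MvPowerSeries.coeff_X]
        by_cases h1 : i' = i
        · rw [h1, if_pos rfl, if_pos rfl]
        · rw [if_neg (fun h2 => h1 (Sum.inr_injective
            (Finsupp.single_left_injective one_ne_zero h2)).symm),
            if_neg (fun h2 => h1 (Sum.inr_injective h2))]
    have hinr : ∀ i, c (Sum.inr i) = 0 := by
      intro i
      have h1 := congrFun hc (Sum.inr i)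
      rw [Finset.sum_apply, Pi.zero_apply] at h1
      simp only [Pi.smul_apply, smul_eq_mul, hrow'] at h1
      rw [Finset.sum_eq_single (Sum.inr i : SV τ s) (fun m _ hm => by rw [if_neg hm, mul_zero])
        (fun h => absurd (mem_univ _) h), if_pos rfl, mul_one] at h1
      exact h1
    rintro (l | i)
    · refine hφ1 (fun l => c (Sum.inl l)) ?_ l
      funext j
      have h1 := congrFun hc (Sum.inl j)
      rw [Finset.sum_apply, Pi.zero_apply] at h1 ⊢
      simp only [Pi.smul_apply, smul_eq_mul, hrow] at h1 ⊢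
      rw [Fintype.sum_sum_type] at h1
      simp only [Sum.elim_inl, Sum.elim_inr, mul_zero, Finset.sum_const_zero, add_zero] at h1
      exact h1
    · exact hinr i
  by_cases h0 : MvPolynomial.eval p G = 0
  swap
  · refine ⟨fun _ => 1, fun _ h1 => absurd ((eval_ext0 G s p).symm.trans h1) h0, fun z hz => ?_⟩
    rw [snc_sub]
    rintro ⟨_, h1⟩
    exact absurd ((eval_ext0 G s p).symm.trans h1) h0
  obtain ⟨P, hP, hsn⟩ := hφ (fun l => w (Sum.inl l)) fun l => hw _
  obtain ⟨P0, hP0⟩ : ∃ P0, P0 = P () := ⟨_, rfl⟩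
  obtain ⟨hPne, N0, hN0⟩ := hP () h0
  rw [← hP0] at hPne
  simp only [← hP0, ← hg] at hN0
  obtain ⟨μ, hμ⟩ : ∃ μ : Fin s → ℕ, μ = fun j =>
    w (Sum.inr (Sum.inl j)) + w (Sum.inr (Sum.inr j)) := ⟨_, rfl⟩
  obtain ⟨N, hNor, hNle, hNμ⟩ : ∃ N, (N = N0 ∨ ∃ j, μ j = N) ∧ N ≤ N0 ∧ ∀ j, N ≤ μ j := by
    obtain ⟨N, hN, hmin⟩ := Finset.exists_min_image (insert N0 (univ.image μ)) id
      (Finset.insert_nonempty _ _)
    refine ⟨N, ?_, hmin N0 (Finset.mem_insert_self _ _), fun j =>
      hmin (μ j) (Finset.mem_insert_of_mem (Finset.mem_image_of_mem _ (mem_univ _)))⟩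
    rw [Finset.mem_insert, Finset.mem_image] at hN
    rcases hN with h1 | ⟨j, _, h1⟩
    · exact Or.inl h1
    · exact Or.inr ⟨j, h1⟩
  obtain ⟨Q, hQ⟩ : ∃ Q : MvPolynomial (SV τ s) k, Q = (if N = N0 then
      MvPolynomial.rename e P0 else 0) + ∑ j : Fin s, if μ j = N then
        MvPolynomial.monomial (uv τ j) (1 : k) else 0 := ⟨_, rfl⟩
  obtain ⟨W, hW⟩ : ∃ W : (SV τ s →₀ ℕ) → ℕ, W = fun α => ∑ l, w l * α l := ⟨_, rfl⟩
  obtain ⟨R, hR⟩ : ∃ R : (SV τ s →₀ ℕ) → k, R = fun α =>
    MvPowerSeries.coeff α (MvPowerSeries.rename e g) := ⟨_, rfl⟩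
  obtain ⟨R0, hR0⟩ : ∃ R0 : (SV τ s →₀ ℕ) → k, R0 = fun α =>
    MvPolynomial.coeff α (MvPolynomial.rename e P0) := ⟨_, rfl⟩
  have hRa : ∀ α, (W α < N0 → R α = 0) ∧ R0 α = if W α = N0 then R α else 0 := by
    intro α
    by_cases hα : ∃ β, α = Finsupp.embDomain e β
    · obtain ⟨β, rfl⟩ := hα
      have h1 : R (Finsupp.embDomain e β) = MvPowerSeries.coeff β g := by
        rw [hR]
        exact MvPowerSeries.coeff_embDomain_rename e g β
      have h2 : R0 (Finsupp.embDomain e β) = MvPolynomial.coeff β P0 := by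
        rw [hR0]
        show MvPolynomial.coeff (Finsupp.embDomain e β) (MvPolynomial.rename e P0) = _
        rw [Finsupp.embDomain_eq_mapDomain]
        exact MvPolynomial.coeff_rename_mapDomain _ e.injective _ _
      have h3 : W (Finsupp.embDomain e β) = ∑ l, w (Sum.inl l) * β l := by
        rw [hW, he]
        exact wt_emb w β
      rw [h1, h2, h3]
      exact hN0 β
    · push Not at hα
      have h4 : α ∉ Set.range (Finsupp.mapDomain e : (τ →₀ ℕ) → (SV τ s →₀ ℕ)) := by
        rw [he] at hα ⊢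
        exact not_range hα
      have h1 : R α = 0 := by
        rw [hR]
        exact MvPowerSeries.coeff_rename_eq_zero _ _ h4
      have h2 : R0 α = 0 := by
        rw [hR0]
        refine MvPolynomial.coeff_rename_eq_zero _ _ _ fun β hβ => ?_
        exact absurd ⟨β, hβ⟩ h4
      rw [h1, h2]
      exact ⟨fun _ => rfl, by split_ifs <;> rfl⟩
  have hcg : ∀ α, MvPowerSeries.coeff α (MvPolynomial.aeval φ' (stab G s)) =
      R α + ∑ j : Fin s, if α = uv τ j then (1 : k) else 0 := by
    intro α
    rw [hg', map_add, map_sum, hR]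
    congr 1
    exact Finset.sum_congr rfl fun j _ => MvPowerSeries.coeff_monomial _ _ _
  have hcQ : ∀ α, MvPolynomial.coeff α Q = (if N = N0 then R0 α else 0) +
      ∑ j : Fin s, if μ j = N then (if α = uv τ j then (1 : k) else 0) else 0 := by
    intro α
    rw [hQ, MvPolynomial.coeff_add, MvPolynomial.coeff_sum, hR0]
    congr 1
    · split_ifs
      · rfl
      · rw [MvPolynomial.coeff_zero]
    · refine Finset.sum_congr rfl fun j _ => ?_
      split_ifs with h1 h2 h2
      · rw [MvPolynomial.coeff_monomial, if_pos h2.symm]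
      · rw [MvPolynomial.coeff_monomial, if_neg (fun h => h2 h.symm)]
      · rw [MvPolynomial.coeff_zero]
  have hWuv : ∀ j, W (uv τ j) = μ j := by
    intro j
    rw [hW, hμ]
    exact wt_uv w j
  have hR0uv : ∀ j, R0 (uv τ j) = 0 := by
    intro j
    rw [hR0]
    refine MvPolynomial.coeff_rename_eq_zero _ _ _ fun β hβ => ?_
    rw [he, ← Finsupp.embDomain_eq_mapDomain] at hβ
    exact absurd hβ (uv_ne_emb j β)
  refine ⟨fun _ => Q, fun _ _ => ⟨?_, N, fun α => ⟨fun hlt => ?_, ?_⟩⟩, fun z hz => ?_⟩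
  · -- `Q ≠ 0`
    by_cases hj : ∃ j, μ j = N
    · obtain ⟨j, hj⟩ := hj
      intro hQ0'
      have hQ0 : Q = 0 := hQ0'
      have h1 := hcQ (uv τ j)
      rw [hQ0, MvPolynomial.coeff_zero, hR0uv, ite_self, zero_add,
        Finset.sum_eq_single j (fun i _ hi => ?_) (fun h => absurd (mem_univ _) h), if_pos hj,
        if_pos rfl] at h1
      · exact zero_ne_one h1
      · have h2 : uv τ j ≠ uv τ i := by
          intro h3
          have h4 := DFunLike.congr_fun h3 (Sum.inr (Sum.inl i))
          rw [uv_apply_u, uv_apply_u, if_pos rfl, if_neg (Ne.symm hi)] at h4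
          exact zero_ne_one h4
        rw [if_neg h2, ite_self]
    · have hNN : N = N0 := hNor.resolve_right hj
      obtain ⟨β, hβ⟩ := MvPolynomial.ne_zero_iff.1 hPne
      intro hQ0'
      have hQ0 : Q = 0 := hQ0'
      have h1 := hcQ (Finsupp.embDomain e β)
      rw [hQ0, MvPolynomial.coeff_zero, if_pos hNN, Finset.sum_eq_zero fun i _ => ?_,
        add_zero] at h1
      · refine hβ ?_
        rw [h1, hR0]
        show _ = MvPolynomial.coeff (Finsupp.embDomain e β) (MvPolynomial.rename e P0)
        rw [Finsupp.embDomain_eq_mapDomain]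
        exact (MvPolynomial.coeff_rename_mapDomain _ e.injective _ _).symm
      · rw [if_neg fun h => hj ⟨i, h⟩]
  · have hlt' : W α < N := by rw [hW]; exact hlt
    rw [hcg, (hRa α).1 (lt_of_lt_of_le hlt' hNle), zero_add]
    refine Finset.sum_eq_zero fun j _ => if_neg ?_
    rintro rfl
    rw [hWuv] at hlt'
    exact absurd (hNμ j) (not_le.2 hlt')
  · have hgoal : (if ∑ l, w l * α l = N then
        MvPowerSeries.coeff α (MvPolynomial.aeval φ' (stab G s)) else 0) =
        if W α = N then R α + ∑ j : Fin s, (if α = uv τ j then (1 : k) else 0) else 0 := by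
      rw [hcg, hW]
    rw [hgoal, hcQ]
    by_cases hWN : W α = N
    · rw [if_pos hWN]
      congr 1
      · by_cases hNN : N = N0
        · rw [if_pos hNN, (hRa α).2, if_pos (hWN.trans hNN)]
        · rw [if_neg hNN]
          exact ((hRa α).1 (hWN ▸ lt_of_le_of_ne hNle hNN)).symm
      · refine Finset.sum_congr rfl fun j _ => ?_
        by_cases hα : α = uv τ j
        · rw [if_pos hα, if_pos]
          rw [← hWN, hα, hWuv]
        · rw [if_neg hα, ite_self]
    · rw [if_neg hWN]
      have h1 : (if N = N0 then R0 α else 0) = 0 := by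
        by_cases hNN : N = N0
        · rw [if_pos hNN, (hRa α).2, if_neg fun h => hWN (h.trans hNN.symm)]
        · rw [if_neg hNN]
      rw [h1, zero_add]
      refine Finset.sum_eq_zero fun j _ => ?_
      by_cases hα : α = uv τ j
      · rw [if_neg]
        intro h2
        refine hWN ?_
        rw [hα, hWuv, h2]
      · rw [if_neg hα, ite_self]
  · rw [snc_sub]
    rintro - hzero
    by_cases hj : ∃ j, μ j = N
    · obtain ⟨j, hj⟩ := hj
      refine ⟨Sum.inr (Sum.inl j), ?_⟩
      have h1 : MvPolynomial.eval z (MvPolynomial.pderiv (Sum.inr (Sum.inl j))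
          (MvPolynomial.map (algebraMap k ℂ) Q)) = z (Sum.inr (Sum.inr j)) := by
        have h2 : ∀ q : MvPolynomial τ k, MvPolynomial.pderiv (Sum.inr (Sum.inl j) : SV τ s)
            (MvPolynomial.rename e q) = 0 := by
          intro q
          rw [he]
          exact pderiv_ren_inr q s (Sum.inl j)
        have h3 : MvPolynomial.pderiv (Sum.inr (Sum.inl j) : SV τ s) Q =
            MvPolynomial.X (Sum.inr (Sum.inr j)) := by
          have h4 : ∀ i : Fin s, MvPolynomial.monomial (uv τ i) (1 : k) =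
              MvPolynomial.X (Sum.inr (Sum.inl i)) * MvPolynomial.X (Sum.inr (Sum.inr i)) := by
            intro i
            rw [MvPolynomial.X, MvPolynomial.X, MvPolynomial.monomial_mul, one_mul]
            rfl
          have h5 : MvPolynomial.pderiv (Sum.inr (Sum.inl j) : SV τ s)
              (if N = N0 then MvPolynomial.rename e P0 else 0) = 0 := by
            split_ifs
            · exact h2 P0
            · exact map_zero _
          rw [hQ, map_add, h5, zero_add, map_sum, Finset.sum_eq_single j]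
          · rw [if_pos hj, h4, Derivation.leibniz, MvPolynomial.pderiv_X_self,
              MvPolynomial.pderiv_X_of_ne (by simp), smul_zero, zero_add, smul_eq_mul, mul_one]
          · intro i _ hi
            split_ifs
            · rw [h4, Derivation.leibniz, MvPolynomial.pderiv_X_of_ne (by simp),
                MvPolynomial.pderiv_X_of_ne (by simp [hi]), smul_zero, smul_zero, add_zero]
            · exact map_zero _
          · intro h
            exact absurd (mem_univ _) h
        rw [MvPolynomial.pderiv_map, h3, MvPolynomial.map_X, MvPolynomial.eval_X]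
      rw [h1]
      exact hz _
    · have hNN : N = N0 := hNor.resolve_right hj
      have hQ1 : Q = MvPolynomial.rename e P0 := by
        rw [hQ, if_pos hNN, Finset.sum_eq_zero fun i _ => if_neg fun h => hj ⟨i, h⟩, add_zero]
      have hsn1 : SncAt (fun _ : {i : Unit // MvPolynomial.eval p G = 0} =>
          MvPolynomial.map (algebraMap k ℂ) P0) (fun l => z (Sum.inl l)) := by
        rw [hP0]
        exact hsn (fun l => z (Sum.inl l)) fun l => hz _
      rw [snc_sub] at hsn1
      have hev : ∀ q : MvPolynomial τ k, MvPolynomial.eval z (MvPolynomial.map (algebraMap k ℂ)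
          (MvPolynomial.rename e q)) = MvPolynomial.eval (fun l => z (Sum.inl l))
          (MvPolynomial.map (algebraMap k ℂ) q) := by
        intro q
        rw [MvPolynomial.map_rename, MvPolynomial.eval_rename, he]
        rfl
      rw [hQ1, hev] at hzero
      obtain ⟨l, hl⟩ := hsn1 ⟨(), h0⟩ hzero
      refine ⟨Sum.inl l, ?_⟩
      have h1 : MvPolynomial.pderiv (Sum.inl l : SV τ s) Q =
          MvPolynomial.rename e (MvPolynomial.pderiv l P0) := by
        rw [hQ1, he]
        exact MvPolynomial.pderiv_rename Sum.inl_injective _ _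
      rw [MvPolynomial.pderiv_map, h1, hev, ← MvPolynomial.pderiv_map]
      exact hl

end Pool.Agent.ISO.H56
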